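import Pool.Agent.Lib.MP_666dc0_nt.ZO.ADefs

/-!
# Matrices of operators in a chart: definitions (complete, NOT a task)
-/

open NumberField IsDedekindDomain
open scoped NumberField

namespace Pool.Agent.Lib.MP_666dc0_nt.ZO

open WL

variable {F : Type} [Field F] [NumberField F] {n : ℕ} {D : Datum F n}
  {U : Subgroup D.Ad} {K : ℕ → Subgroup D.Ad}

open Classical in
/-- The indicator function of the point with the coordinates `p`. -/
noncomputable def Chart.dlt (c : Chart U K) (ℓ : ℕ) [Fact ℓ.Prime] (s : ℕ) (p : c.R × PP K s) : Nice ℓ U :=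
  ⟨c.pull s (fun p' => if p' = p then 1 else 0), by
    refine ⟨fun g u hu => ?_, ⟨⊥, inferInstance, fun g => ?_⟩, ⟨1, fun g => ?_⟩⟩
    · unfold Chart.pull
      rw [c.cls_right g u (Subgroup.mem_sup_left hu), c.kap_tame g u hu]
    · unfold Chart.pull
      beta_reduce
      split_ifs
      · exact one_mem _
      · exact zero_mem _
    · unfold Chart.pull
      beta_reduce
      split_ifs
      · rw [norm_one]
      · rw [norm_zero]
        exact zero_le_one⟩

open Classical in
/-- The indicator function of the class `r`. -/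
noncomputable def Chart.dlt0 (c : Chart U K) (ℓ : ℕ) [Fact ℓ.Prime] (r : c.R) : Nice ℓ U :=
  ⟨fun g => if c.cls g = r then 1 else 0, by
    refine ⟨fun g u hu => ?_, ⟨⊥, inferInstance, fun g => ?_⟩, ⟨1, fun g => ?_⟩⟩
    · rw [c.cls_right g u (Subgroup.mem_sup_left hu)]
    · split_ifs
      · exact one_mem _
      · exact zero_mem _
    · split_ifs
      · rw [norm_one]
      · rw [norm_zero]
        exact zero_le_one⟩

variable {ℓ : ℕ} [Fact ℓ.Prime]

/-- The matrix of the operator `T` on the functions which are right invariant under `K s`. -/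
noncomputable def mT (c : Chart U K) (T : Nice ℓ U →ₗ[PadicAlgCl ℓ] Nice ℓ U) (s : ℕ) :
    Matrix (c.R × PP K s) (c.R × PP K s) (PadicAlgCl ℓ) :=
  fun p' p => (T (c.dlt ℓ s p)).1 (c.bp s p')

/-- The matrix of the operator `T` on the functions which are right invariant under `K 0`. -/
noncomputable def mT0 (c : Chart U K) (T : Nice ℓ U →ₗ[PadicAlgCl ℓ] Nice ℓ U) : Matrix c.R c.R (PadicAlgCl ℓ) :=
  fun r' r => (T (c.dlt0 ℓ r)).1 (c.pt r')

variable {w s : ℕ} {ρ : K 0 →* Matrix (Fin w) (Fin w) (PadicAlgCl ℓ)}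

/-- The coordinate `j` of a vector valued function. -/
noncomputable def vc (h : ∀ (Φ : VF U K ρ s) (j : Fin w), IsNice U (fun g => Φ.1 g j)) (j : Fin w) :
    VF U K ρ s →ₗ[PadicAlgCl ℓ] Nice ℓ U where
  toFun Φ := ⟨fun g => Φ.1 g j, h Φ j⟩
  map_add' _ _ := rfl
  map_smul' _ _ := rfl

/-- The operator `T`, applied to the coordinates of a vector valued function. -/
noncomputable def TV (T : Nice ℓ U →ₗ[PadicAlgCl ℓ] Nice ℓ U)
    (h : ∀ (Φ : VF U K ρ s) (j : Fin w), IsNice U (fun g => Φ.1 g j)) :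
    VF U K ρ s →ₗ[PadicAlgCl ℓ] (D.Ad → Fin w → PadicAlgCl ℓ) where
  toFun Φ := fun g j => (T (vc h j Φ)).1 g
  map_add' a b := by
    funext g j
    simp only [map_add, Submodule.coe_add, Pi.add_apply]
  map_smul' a b := by
    funext g j
    simp only [map_smul, Submodule.coe_smul, Pi.smul_apply, RingHom.id_apply]

end Pool.Agent.Lib.MP_666dc0_nt.ZO
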