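import Pool.Agent.Lib.MP_666dc0_nt.ZO.XDefs
import Pool.Agent.Lib.MP_666dc0_nt.WL.C5a

/-!
TASK X2b. Formulas in a chart.

* `apply_eq`: `c.decomp g : g = D.toAd γ * pt (cls g) * u * kap g`; `u` and `kap g` commute (`mul_comm_of_disjoint` of `WL/C5a`: `u ∈ U` is trivial at the places above `ℓ` by `hU`, `kap g ∈ K 0` at the other places by `hK`), so `φ g = φ (pt * u * kap g) = φ (pt * kap g * u) = φ (pt * kap g)` by `left`, `right`.
* `cls_bp`, `kap_bp`: `bp s (r, x) = pt r * k` with `k = Quotient.out x ∈ K 0`: `cls_right` (`k ∈ U ⊔ K 0`), `cls_pt`, `kap_mul`, `kap_pt`, `Quotient.out_eq`.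
* `isLC_pull`: `cls_left`, `cls_right`, `kap_left`, `kap_tame`, `kap_mul`: `kap (g * k) = kap g * k` for `k ∈ K s ≤ K 0` (`hle`), and the classes of `kap g * k` and `kap g` in `K 0 ⧸ K s` agree (`QuotientGroup.mk_mul_of_mem` or `QuotientGroup.eq`).
* `lc_eq`: `φ g = φ (pt (cls g) * kap g)` by `apply_eq`, and `kap g = Quotient.out (mk (kap g)) * k` for some `k ∈ K s` (`QuotientGroup.mk_out_eq_mul`), use `inv`.
* `exists_split_bp`: the same without `φ`: `pt (cls g) * kap g = bp s (cls g, mk (kap g)) * k`.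
-/

open NumberField IsDedekindDomain
open scoped NumberField

namespace Pool.Agent.Lib.MP_666dc0_nt.ZO

open WL

variable {F : Type} [Field F] [NumberField F] {n : ℕ} {D : Datum F n} {ℓ : ℕ}
  {U : Subgroup D.Ad} {K : ℕ → Subgroup D.Ad} (c : Chart U K)

theorem Chart.apply_eq (hU : IsTame ℓ U)
    (hK : ∀ g ∈ K 0, ∀ v : HeightOneSpectrum (𝓞 F), (ℓ : 𝓞 F) ∉ v.asIdeal → TrivialAt v g)
    {α : Type} {φ : D.Ad → α} (hφ : IsTF U φ) (g : D.Ad) : φ g = φ (c.pt (c.cls g) * c.kap g) := by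
  obtain ⟨γ, u, hu, hg⟩ := c.decomp g
  have hcomm : u * (c.kap g : D.Ad) = (c.kap g : D.Ad) * u := by
    refine mul_comm_of_disjoint fun v => ?_
    by_cases hv : (ℓ : 𝓞 F) ∈ v.asIdeal
    · exact Or.inl (hU u hu v hv)
    · exact Or.inr (hK _ (c.kap g).2 v hv)
  calc φ g = φ (D.toAd γ * c.pt (c.cls g) * u * c.kap g) := congrArg φ hg
    _ = φ (D.toAd γ * (c.pt (c.cls g) * c.kap g * u)) := by
        congr 1
        rw [mul_assoc (c.pt (c.cls g)), ← hcomm]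
        simp only [mul_assoc]
    _ = φ (c.pt (c.cls g) * c.kap g) := by rw [hφ.left, hφ.right _ u hu]

theorem Chart.cls_bp (s : ℕ) (p : c.R × PP K s) : c.cls (c.bp s p) = p.1 := by
  unfold Chart.bp
  rw [c.cls_right _ _ (Subgroup.mem_sup_right (Quotient.out p.2 : K 0).2), c.cls_pt]

theorem Chart.kap_bp (s : ℕ) (p : c.R × PP K s) : (QuotientGroup.mk (c.kap (c.bp s p)) : PP K s) = p.2 := by
  unfold Chart.bp
  rw [c.kap_mul, c.kap_pt, one_mul]
  exact Quotient.out_eq p.2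

theorem Chart.isLC_pull (s : ℕ) (hle : K s ≤ K 0) {α : Type} (f : c.R × PP K s → α) :
    IsLC U K s (c.pull s f) := by
  refine ⟨⟨fun γ g => ?_, fun g u hu => ?_⟩, fun g k hk => ?_⟩
  · unfold Chart.pull
    rw [c.cls_left, c.kap_left]
  · unfold Chart.pull
    rw [c.cls_right _ _ (Subgroup.mem_sup_left hu), c.kap_tame _ _ hu]
  · unfold Chart.pull
    have h1 := c.kap_mul g ⟨k, hle hk⟩
    rw [c.cls_right _ _ (Subgroup.mem_sup_right (hle hk))]
    simp only at h1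
    rw [h1]
    congr 2
    refine QuotientGroup.mk_mul_of_mem _ ?_
    rw [Subgroup.mem_subgroupOf]
    exact hk

theorem Chart.exists_split_bp (s : ℕ) (g : D.Ad) : ∃ k : K 0, (k : D.Ad) ∈ K s ∧
    c.pt (c.cls g) * c.kap g = c.bp s (c.cls g, QuotientGroup.mk (c.kap g)) * k := by
  obtain ⟨h, hh⟩ := QuotientGroup.mk_out_eq_mul ((K s).subgroupOf (K 0)) (c.kap g)
  refine ⟨(h : K 0)⁻¹, ?_, ?_⟩
  · have h1 := h.2
    rw [Subgroup.mem_subgroupOf] at h1
    exact inv_mem h1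
  · unfold Chart.bp
    simp only
    rw [hh]
    simp [mul_assoc]

theorem Chart.lc_eq (hU : IsTame ℓ U)
    (hK : ∀ g ∈ K 0, ∀ v : HeightOneSpectrum (𝓞 F), (ℓ : 𝓞 F) ∉ v.asIdeal → TrivialAt v g)
    {s : ℕ} {α : Type} {φ : D.Ad → α} (hφ : IsLC U K s φ) (g : D.Ad) :
    φ g = φ (c.bp s (c.cls g, QuotientGroup.mk (c.kap g))) := by
  obtain ⟨k, hk, h⟩ := c.exists_split_bp s g
  rw [c.apply_eq hU hK hφ.tf g, h, hφ.inv _ _ hk]

end Pool.Agent.Lib.MP_666dc0_nt.ZO
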