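import Pool.Agent.Lib.MP_666dc0_nt.ZO.ADefs
import Pool.Agent.Lib.MP_666dc0_nt.WL.C5a
import Pool.Agent.Lib.MP_666dc0_nt.Mg.G012

/-!
TASK A1. The commutative algebra of the Hecke operators on the right `U`-invariant functions.

For `x : IX ℓ S U` (a place `v ∉ S` and an integral Hecke function `h` of `U` at `v`) the operator `x.1.2.actK` (see `WL/D1defs`) is linear (`actK_smul`, sums: unfold `Finsupp.sum`) and maps `FU ℓ U` to itself: for `u ∈ U` write `u = a b` with `a ∈ U`, `a ∈ locSub D v`, `b = a⁻¹ u` trivial at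
`v` (`IsGoodAt.split`), `b ∈ U` commutes with `c.out ∈ locSub D v` (`mul_comm_of_disjoint` of `WL/C5a`), so `φ (g u c.out) = φ (g a c.out b) = φ (g a c.out)`, and `c ↦ a • c` permutes the cosets, `h (a • c) = h c`, and `φ (g x)` for `x ∈ locSub D v` depends only on the coset of `x`.
(The same proof is in `WL/C5b`, `act_isForm`, for forms; you may transport along `ι`: `ι ((h.act f) g) = h.actK (ι ∘ f) g` for `f : D.Ad → ℂ`.)
Two such operators commute on `FU`: for the same place by `IsGoodAt.comm` (transport along some `ι : ℂ ≃+* PadicAlgCl ℓ`, which exists: `exists_iso_extending` of the library; or `Nonempty (ℂ ≃+* PadicAlgCl ℓ)`), for different places because `c.out` and `c'.out` commute (`mul_comm_of_disjoint`) and the double sum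
can be exchanged. Then `Algebra.adjoin (PadicAlgCl ℓ) (range of the operators)` is commutative (`Algebra.adjoinCommRingOfComm`), and `op` is `MvPolynomial.aeval` into it, followed by the inclusion.
-/

open NumberField IsDedekindDomain
open scoped NumberField

namespace Pool.Agent.Lib.MP_666dc0_nt.ZO

open WL

section

variable {F : Type} [Field F] [NumberField F] {n : ℕ} {D : Datum F n} {ℓ : ℕ} [Fact ℓ.Prime]
  {U : Subgroup D.Ad} {v : HeightOneSpectrum (𝓞 F)}

private theorem A1_out (a : locSub D v) :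
    ∃ u ∈ U, (((QuotientGroup.mk a : locSub D v ⧸ U.subgroupOf (locSub D v)).out : locSub D v) : D.Ad) =
        (a : D.Ad) * u := by
  obtain ⟨w, hw⟩ := QuotientGroup.mk_out_eq_mul (U.subgroupOf (locSub D v)) a
  refine ⟨((w : locSub D v) : D.Ad), Subgroup.mem_subgroupOf.1 w.2, ?_⟩
  have h2 := congrArg (fun z : locSub D v => (z : D.Ad)) hw
  exact h2

private theorem A1_right (hg : IsGoodAt U v) (h : Hecke U v) {φ : D.Ad → PadicAlgCl ℓ}
    (hφ : ∀ g, ∀ u ∈ U, φ (g * u) = φ g) (g : D.Ad) (u : D.Ad) (hu : u ∈ U) :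
    h.actK φ (g * u) = h.actK φ g := by
  obtain ⟨a, ha, hav, hat⟩ := hg.split u hu
  have hb : a⁻¹ * u ∈ U := mul_mem (inv_mem ha) hu
  set α : locSub D v := ⟨a, hav⟩ with hα
  have key : ∀ c : LocQuot U v, φ (g * u * ((Quotient.out c : locSub D v) : D.Ad)) =
      φ (g * ((Quotient.out (α • c) : locSub D v) : D.Ad)) := by
    intro c
    have h1 : (α • c : LocQuot U v) = QuotientGroup.mk (α * Quotient.out c) := by
      conv_lhs => rw [← QuotientGroup.out_eq' c]
      rfl
    obtain ⟨w, hw, hw'⟩ := A1_out (U := U) (α * Quotient.out c)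
    have h2 : ((Quotient.out (α • c) : locSub D v) : D.Ad) = a * ((Quotient.out c : locSub D v) : D.Ad) * w := by
      rw [h1]
      exact hw'
    rw [h2]
    have h3 : (a⁻¹ * u) * ((Quotient.out c : locSub D v) : D.Ad) = ((Quotient.out c : locSub D v) : D.Ad) * (a⁻¹ * u) := by
      refine mul_comm_of_disjoint fun z => ?_
      by_cases hz : z = v
      · subst hz
        exact Or.inl hat
      · exact Or.inr ((Quotient.out c : locSub D v).2 z hz)
    have h4 : g * u * ((Quotient.out c : locSub D v) : D.Ad) =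
        g * (a * ((Quotient.out c : locSub D v) : D.Ad)) * (a⁻¹ * u) := by
      calc g * u * ((Quotient.out c : locSub D v) : D.Ad)
          = g * a * ((a⁻¹ * u) * ((Quotient.out c : locSub D v) : D.Ad)) := by group
        _ = g * a * (((Quotient.out c : locSub D v) : D.Ad) * (a⁻¹ * u)) := by rw [h3]
        _ = g * (a * ((Quotient.out c : locSub D v) : D.Ad)) * (a⁻¹ * u) := by group
    have h5 : g * (a * ((Quotient.out c : locSub D v) : D.Ad) * w) = g * (a * ((Quotient.out c : locSub D v) : D.Ad)) * w :=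
      (mul_assoc _ _ _).symm
    rw [h4, hφ _ _ hb, h5, hφ _ _ hw]
  have hval : ∀ c : LocQuot U v, h.1 (α • c) = h.1 c := fun c => h.2 α ha c
  unfold Hecke.actK Finsupp.sum
  refine Finset.sum_equiv (MulAction.toPerm α) ?_ ?_
  · intro c
    rw [MulAction.toPerm_apply, Finsupp.mem_support_iff, Finsupp.mem_support_iff, hval]
  · intro c _
    beta_reduce
    rw [MulAction.toPerm_apply, key, hval]

private theorem A1_act (ι : ℂ ≃+* PadicAlgCl ℓ) (h : Hecke U v) (φ : D.Ad → PadicAlgCl ℓ) :
    h.act (fun g => ι.symm (φ g)) = fun g => ι.symm (h.actK φ g) := by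
  funext g
  unfold Hecke.act Hecke.actK
  simp only [Finsupp.sum, map_sum, map_mul, map_ratCast, smul_eq_mul]

private theorem A1_comm (ι : ℂ ≃+* PadicAlgCl ℓ) (hv : IsGoodAt U v) {w : HeightOneSpectrum (𝓞 F)}
    (h : Hecke U v) (h' : Hecke U w) {φ : D.Ad → PadicAlgCl ℓ}
    (hφ : ∀ g, ∀ u ∈ U, φ (g * u) = φ g) : h.actK (h'.actK φ) = h'.actK (h.actK φ) := by
  by_cases hvw : v = w
  · subst hvw
    have h1 := hv.comm h h' (fun g => ι.symm (φ g)) (fun g u hu => by simp only [hφ g u hu])
    rw [A1_act ι h' φ, A1_act ι h φ, A1_act ι h, A1_act ι h'] at h1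
    funext g
    exact ι.symm.injective (congrFun h1 g)
  · funext g
    unfold Hecke.actK
    simp only [Finsupp.sum, Finset.mul_sum]
    rw [Finset.sum_comm]
    refine Finset.sum_congr rfl fun c _ => Finset.sum_congr rfl fun c' _ => ?_
    rw [mul_left_comm]
    have hcomm : ((c'.out : locSub D v) : D.Ad) * ((c.out : locSub D w) : D.Ad) =
        ((c.out : locSub D w) : D.Ad) * ((c'.out : locSub D v) : D.Ad) := by
      refine mul_comm_of_disjoint fun z => ?_
      by_cases hz : z = v
      · refine Or.inr ((c.out : locSub D w).2 z ?_)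
        rw [hz]
        exact hvw
      · exact Or.inl ((c'.out : locSub D v).2 z hz)
    rw [mul_assoc g, hcomm, ← mul_assoc g]

private noncomputable def A1_T (hg : IsGoodAt U v) (h : Hecke U v) : Module.End (PadicAlgCl ℓ) (FU ℓ U) where
  toFun φ := ⟨h.actK φ.1, fun g u hu => A1_right hg h φ.2 g u hu⟩
  map_add' φ ψ := by
    apply Subtype.ext
    funext g
    show h.actK (φ.1 + ψ.1) g = h.actK φ.1 g + h.actK ψ.1 g
    unfold Hecke.actK Finsupp.sum
    rw [← Finset.sum_add_distrib]
    exact Finset.sum_congr rfl fun c _ => by beta_reduce; rw [Pi.add_apply, mul_add]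
  map_smul' a φ := by
    apply Subtype.ext
    exact actK_smul h a φ.1

end

private theorem A1_lift {R A I : Type} [CommRing R] [Ring A] [Algebra R A] (T : I → A)
    (hcomm : ∀ x y, T x * T y = T y * T x) : ∃ op : MvPolynomial I R →ₐ[R] A, ∀ x, op (MvPolynomial.X x) = T x := by
  classical
  have hc : ∀ a ∈ Set.range T, ∀ b ∈ Set.range T, a * b = b * a := by
    rintro _ ⟨x, rfl⟩ _ ⟨y, rfl⟩
    exact hcomm x y
  have hI : IsMulCommutative (Algebra.adjoin R (Set.range T)) := Algebra.isMulCommutative_adjoin R hc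
  let _ : CommRing (Algebra.adjoin R (Set.range T)) :=
    { (inferInstance : Ring (Algebra.adjoin R (Set.range T))) with
      mul_comm := fun a b => hI.is_comm.comm a b }
  refine ⟨(Algebra.adjoin R (Set.range T)).val.comp
    (MvPolynomial.aeval (R := R) (S₁ := Algebra.adjoin R (Set.range T))
      (fun x => ⟨T x, Algebra.subset_adjoin ⟨x, rfl⟩⟩)), fun x => ?_⟩
  rw [AlgHom.comp_apply, MvPolynomial.aeval_X]
  rfl

theorem exists_op {F : Type} [Field F] [NumberField F] {n : ℕ} {D : Datum F n} {ℓ : ℕ} [Fact ℓ.Prime]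
    (S : Finset (HeightOneSpectrum (𝓞 F))) (U : Subgroup D.Ad) (ι : ℂ ≃+* PadicAlgCl ℓ)
    (hUS : ∀ v, v ∉ S → IsGoodAt U v) :
    ∃ op : MvPolynomial (IX ℓ S U) (PadicAlgCl ℓ) →ₐ[PadicAlgCl ℓ] Module.End (PadicAlgCl ℓ) (FU ℓ U),
      IsOp op := by
  obtain ⟨op, hop⟩ := A1_lift (R := PadicAlgCl ℓ) (A := Module.End (PadicAlgCl ℓ) (FU ℓ U)) (I := IX ℓ S U)
    (fun x => A1_T (hUS x.1.1 x.2.1) x.1.2) (by
      intro x y
      apply LinearMap.ext
      intro φ
      apply Subtype.ext
      exact A1_comm ι (hUS x.1.1 x.2.1) x.1.2 y.1.2 φ.2)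
  refine ⟨op, ⟨fun x φ => ?_⟩⟩
  rw [hop x]
  rfl

end Pool.Agent.Lib.MP_666dc0_nt.ZO
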