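import Pool.Agent.Lib.MP_666dc0_nt.ZO.LDefs

/-!
TASK L1. The reduction homomorphism.

* `exists_red`: the ideal `{x | ‖x‖ < 1}` of `OK ℓ` is maximal (an element of norm `1` is a unit); `k = OK ℓ ⧸ ideal` (`Ideal.Quotient.field`).
* `charP`: `ρ.hom ℓ = 0` since `‖(ℓ : PadicAlgCl ℓ)‖ < 1`; `CharP` of a field with `(ℓ : k) = 0` for the prime `ℓ` (`CharP.of_prime..`/`charP_of_prime_pow_injective`; for instance `CharP.exists k` and the characteristic divides `ℓ`).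
* `app_*`: unfold; `app_eq`: `x - y` is in the kernel and `‖y‖ ≤ 1`.
* `app_sum`: `Finset.induction_on` or `map_sum`.
* `linearIndependent_of_app`: let `∑ c i • v i = 0` be a relation with some `c i ≠ 0`; divide by the `c i₀` of the largest norm: all `‖c i‖ ≤ 1`, `c i₀ = 1`. Apply `app`: `∑ app (c i) * app (v i j) = 0` for all `j`, with `app (c i₀) = 1`.
-/

namespace Pool.Agent.Lib.MP_666dc0_nt.ZO

private def mId (ℓ : ℕ) [Fact ℓ.Prime] : Ideal (OK ℓ) where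
  carrier := {x | ‖(x : PadicAlgCl ℓ)‖ < 1}
  add_mem' {a b} ha hb := by
    change ‖(a : PadicAlgCl ℓ) + b‖ < 1
    exact (IsUltrametricDist.norm_add_le_max _ _).trans_lt (max_lt ha hb)
  zero_mem' := by
    change ‖(0 : PadicAlgCl ℓ)‖ < 1
    rw [norm_zero]
    exact zero_lt_one
  smul_mem' c x hx := by
    change ‖(c : PadicAlgCl ℓ) * x‖ < 1
    rw [norm_mul]
    exact mul_lt_one_of_nonneg_of_lt_one_right c.2 (norm_nonneg _) hx

private theorem mId_mem {ℓ : ℕ} [Fact ℓ.Prime] {x : OK ℓ} : x ∈ mId ℓ ↔ ‖(x : PadicAlgCl ℓ)‖ < 1 := Iff.rfl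

private theorem mId_max (ℓ : ℕ) [Fact ℓ.Prime] : (mId ℓ).IsMaximal := by
  rw [Ideal.isMaximal_iff]
  refine ⟨?_, ?_⟩
  · rw [mId_mem]
    change ¬ ‖(1 : PadicAlgCl ℓ)‖ < 1
    rw [norm_one]
    exact lt_irrefl _
  · intro J x _ hx hxJ
    rw [mId_mem, not_lt] at hx
    have h1 : ‖(x : PadicAlgCl ℓ)‖ = 1 := le_antisymm x.2 hx
    have h0 : (x : PadicAlgCl ℓ) ≠ 0 := by
      rw [← norm_ne_zero_iff, h1]
      exact one_ne_zero
    have h2 : ‖(x : PadicAlgCl ℓ)⁻¹‖ ≤ 1 := by rw [norm_inv, h1, inv_one]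
    have h3 : (⟨(x : PadicAlgCl ℓ)⁻¹, h2⟩ : OK ℓ) * x = 1 := Subtype.ext (inv_mul_cancel₀ h0)
    rw [← h3]
    exact J.mul_mem_left _ hxJ

theorem exists_red (ℓ : ℕ) [Fact ℓ.Prime] : ∃ (k : Type) (_ : Field k), Nonempty (Red ℓ k) := by
  have := mId_max ℓ
  let _ := Ideal.Quotient.field (mId ℓ)
  exact ⟨OK ℓ ⧸ mId ℓ, inferInstance, ⟨⟨Ideal.Quotient.mk (mId ℓ), Ideal.Quotient.mk_surjective,
    fun x => Ideal.Quotient.eq_zero_iff_mem⟩⟩⟩

variable {ℓ : ℕ} [Fact ℓ.Prime] {k : Type} [Field k] (ρ : Red ℓ k)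

include ρ in
theorem Red.charP : CharP k ℓ := by
  have h1 : ‖(ℓ : PadicAlgCl ℓ)‖ < 1 := by
    have h2 : ((ℓ : ℚ_[ℓ]) : PadicAlgCl ℓ) = (ℓ : PadicAlgCl ℓ) := map_natCast (algebraMap ℚ_[ℓ] (PadicAlgCl ℓ)) ℓ
    rw [← h2, PadicAlgCl.norm_extends]
    exact Padic.norm_p_lt_one
  have h3 : (ℓ : k) = 0 := by
    have h4 : ρ.hom (ℓ : OK ℓ) = 0 := (ρ.ker _).2 h1
    rwa [map_natCast] at h4
  obtain ⟨p, hp⟩ := CharP.exists k
  have h5 : p ∣ ℓ := (CharP.cast_eq_zero_iff k p ℓ).1 h3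
  rcases (Nat.dvd_prime Fact.out).1 h5 with h6 | h6
  · exact absurd h6 (CharP.char_ne_one k p)
  · exact h6 ▸ hp

private theorem app_of {x : PadicAlgCl ℓ} (h : ‖x‖ ≤ 1) : ρ.app x = ρ.hom ⟨x, h⟩ := dif_pos h

private theorem norm_sum_le' {I : Type} (s : Finset I) {x : I → PadicAlgCl ℓ} (hx : ∀ i ∈ s, ‖x i‖ ≤ 1) :
    ‖∑ i ∈ s, x i‖ ≤ 1 := by
  classical
  induction s using Finset.induction_on with
  | empty => simp
  | insert a s ha ih =>
    rw [Finset.sum_insert ha]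
    exact (IsUltrametricDist.norm_add_le_max _ _).trans
      (max_le (hx a (Finset.mem_insert_self a s)) (ih fun i hi => hx i (Finset.mem_insert_of_mem hi)))

theorem Red.app_one : ρ.app 1 = 1 := by
  have h : ‖(1 : PadicAlgCl ℓ)‖ ≤ 1 := norm_one.le
  rw [app_of ρ h]
  exact map_one ρ.hom

theorem Red.app_zero : ρ.app 0 = 0 := by
  have h : ‖(0 : PadicAlgCl ℓ)‖ ≤ 1 := by
    rw [norm_zero]
    exact zero_le_one
  rw [app_of ρ h]
  exact map_zero ρ.hom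

theorem Red.app_add {x y : PadicAlgCl ℓ} (hx : ‖x‖ ≤ 1) (hy : ‖y‖ ≤ 1) : ρ.app (x + y) = ρ.app x + ρ.app y := by
  have h : ‖x + y‖ ≤ 1 := (IsUltrametricDist.norm_add_le_max x y).trans (max_le hx hy)
  rw [app_of ρ h, app_of ρ hx, app_of ρ hy]
  exact map_add ρ.hom ⟨x, hx⟩ ⟨y, hy⟩

theorem Red.app_mul {x y : PadicAlgCl ℓ} (hx : ‖x‖ ≤ 1) (hy : ‖y‖ ≤ 1) : ρ.app (x * y) = ρ.app x * ρ.app y := by
  have h : ‖x * y‖ ≤ 1 := by
    rw [norm_mul]
    exact mul_le_one₀ hx (norm_nonneg _) hy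
  rw [app_of ρ h, app_of ρ hx, app_of ρ hy]
  exact map_mul ρ.hom ⟨x, hx⟩ ⟨y, hy⟩

theorem Red.app_sum {I : Type} (s : Finset I) {x : I → PadicAlgCl ℓ} (hx : ∀ i ∈ s, ‖x i‖ ≤ 1) :
    ρ.app (∑ i ∈ s, x i) = ∑ i ∈ s, ρ.app (x i) := by
  classical
  induction s using Finset.induction_on with
  | empty =>
    rw [Finset.sum_empty, Finset.sum_empty]
    exact ρ.app_zero
  | insert a s ha ih =>
    rw [Finset.sum_insert ha, Finset.sum_insert ha, ρ.app_add (hx a (Finset.mem_insert_self a s))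
      (norm_sum_le' s fun i hi => hx i (Finset.mem_insert_of_mem hi)),
      ih fun i hi => hx i (Finset.mem_insert_of_mem hi)]

theorem Red.app_eq_zero_iff {x : PadicAlgCl ℓ} (hx : ‖x‖ ≤ 1) : ρ.app x = 0 ↔ ‖x‖ < 1 := by
  rw [app_of ρ hx]
  exact ρ.ker ⟨x, hx⟩

theorem Red.app_eq {x y : PadicAlgCl ℓ} (hx : ‖x‖ ≤ 1) (h : ‖x - y‖ < 1) : ρ.app x = ρ.app y := by
  have h1 : ‖x - y‖ ≤ 1 := h.le
  have hy : ‖y‖ ≤ 1 := by
    have h2 : y = x + -(x - y) := by ring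
    rw [h2]
    refine (IsUltrametricDist.norm_add_le_max _ _).trans (max_le hx ?_)
    rwa [norm_neg]
  have h3 : x = y + (x - y) := by ring
  have h4 : ρ.app (x - y) = 0 := (ρ.app_eq_zero_iff h1).2 h
  calc ρ.app x = ρ.app (y + (x - y)) := by rw [← h3]
    _ = ρ.app y + ρ.app (x - y) := ρ.app_add hy h1
    _ = ρ.app y := by rw [h4, add_zero]

theorem Red.exists_lift (a : k) : ∃ x : PadicAlgCl ℓ, ‖x‖ ≤ 1 ∧ ρ.app x = a := by
  obtain ⟨x, hx⟩ := ρ.surj a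
  exact ⟨x, x.2, by rw [app_of ρ x.2]; exact hx⟩

/-- Linear independence of the reductions implies linear independence. -/
theorem Red.linearIndependent_of_app {I N : Type} [Finite I] (v : I → N → PadicAlgCl ℓ)
    (hv : ∀ i j, ‖v i j‖ ≤ 1) (h : LinearIndependent k fun (i : I) (j : N) => ρ.app (v i j)) :
    LinearIndependent (PadicAlgCl ℓ) v := by
  classical
  have := Fintype.ofFinite I
  rw [Fintype.linearIndependent_iff] at h ⊢
  intro g hg
  by_contra hcon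
  push Not at hcon
  obtain ⟨i₁, hi₁⟩ := hcon
  have : Nonempty I := ⟨i₁⟩
  obtain ⟨i₀, hi₀⟩ := Finite.exists_max fun i => ‖g i‖
  have hpos : 0 < ‖g i₀‖ := (norm_pos_iff.2 hi₁).trans_le (hi₀ i₁)
  have h0 : g i₀ ≠ 0 := norm_pos_iff.1 hpos
  have hc : ∀ i, ‖g i / g i₀‖ ≤ 1 := fun i => by
    rw [norm_div]
    exact div_le_one_of_le₀ (hi₀ i) (norm_nonneg _)
  have h1 : ∀ i, ρ.app (g i / g i₀) = 0 := by
    apply h
    funext j
    have h2 : ∑ i, g i / g i₀ * v i j = 0 := by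
      have h3 := congrFun hg j
      rw [Finset.sum_apply] at h3
      simp only [Pi.smul_apply, smul_eq_mul, Pi.zero_apply] at h3
      calc ∑ i, g i / g i₀ * v i j = (∑ i, g i * v i j) / g i₀ := by
            rw [Finset.sum_div]
            exact Finset.sum_congr rfl fun i _ => by ring
        _ = 0 := by rw [h3, zero_div]
    rw [Finset.sum_apply]
    simp only [Pi.smul_apply, smul_eq_mul, Pi.zero_apply]
    calc ∑ i, ρ.app (g i / g i₀) * ρ.app (v i j) = ∑ i, ρ.app (g i / g i₀ * v i j) :=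
          Finset.sum_congr rfl fun i _ => (ρ.app_mul (hc i) (hv i j)).symm
      _ = ρ.app (∑ i, g i / g i₀ * v i j) := (ρ.app_sum _ fun i _ => by
          rw [norm_mul]
          exact mul_le_one₀ (hc i) (norm_nonneg _) (hv i j)).symm
      _ = 0 := by rw [h2, ρ.app_zero]
  have h5 := h1 i₀
  rw [div_self h0, ρ.app_one] at h5
  exact one_ne_zero h5

end Pool.Agent.Lib.MP_666dc0_nt.ZO
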