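import Pool.Agent.Lib.MP_666dc0_nt.ZO.ADefs
import Pool.Agent.Lib.MP_666dc0_nt.Mg.G077

/-!
TASK T1. Towers through an arbitrary level.

`hK : IsUniform ℓ d U K`, `J` a level with `J ≤ K 0`.
* `tow_isTow`: `level`: by cases `0`, `1`, `s + 2`: `J ⊓ K s = J ⊓ (U ⊔ K s)`, since an element of `J` in `U ⊔ K s` is `u k`, it is trivial outside `ℓ`, `k` too, so `u = 1` (as in `exists_level_le`, W0; `mem_sup_iff`, `eq_one_of_trivialAt` of `WL/C5a`); use `isLevel_inf` of `WL/D3` with `W = U ⊔ K s`.  `anti`: `J ≤ K 0` (`hle`), `J ⊓ K 2 ≤ J`, `J ⊓ K (s + 3) ≤ J ⊓ K (s + 2)`. `small`: for `W` open there is `s` with `K s ≤ W`; `tow K J (s + 2) ≤ K (s + 2) ≤ K s` (`IsTow.K_le` of `hK.tow`). `entries`: `tow K J 0 = K 0`. `fin`: by `exists_level_le` there is `s'` with `K s' ≤ tow K J s`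
  (which is a level); `PP K s' → PP (tow K J) s` is surjective (both are quotients of `K 0`; `Finite.of_surjective`, `Quotient.map'` or `Subgroup.quotientMapOfLE`), and `PP K s'` is finite (`hK.finite_PP`).
* `isUC_of_tow`: for `ε` let `s` belong to `ε` for the tower `tow K J`; by `exists_level_le` `K s' ≤ tow K J s` for some `s'`.
* `IsGoodOp.tow`: `norm` by `isUC_of_tow`. `Killer.tow` is not needed.
* `piJ`: the projection; `piJ_mk` is `rfl`; `piJ_surjective`; `piJ_eq_iff`: `QuotientGroup.eq`.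
* `card_tow`: `rfl` or unfold `Subgroup.relIndex`, `Subgroup.index`. `card_mul`: `Subgroup.relIndex_mul_relIndex`.
-/

open NumberField IsDedekindDomain
open scoped NumberField

namespace Pool.Agent.Lib.MP_666dc0_nt.ZO

open WL

variable {F : Type} [Field F] [NumberField F] {n : ℕ} {D : Datum F n} {ℓ : ℕ} [Fact ℓ.Prime] {d : ℕ}
  {S : Finset (HeightOneSpectrum (𝓞 F))} {U : Subgroup D.Ad} {K : ℕ → Subgroup D.Ad} {J : Subgroup D.Ad}

/-- `J ⊓ K s` is a level. -/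
private theorem T1_isLevel_inf (hU : IsTame ℓ U) (hK : IsUniform ℓ d U K) (hJ : IsLevel ℓ U J) (s : ℕ) :
    IsLevel ℓ U (J ⊓ K s) := by
  have h1 : J ⊓ K s = J ⊓ (U ⊔ K s) := by
    refine le_antisymm (inf_le_inf_left J le_sup_right) ?_
    intro g hg
    obtain ⟨hgJ, hgs⟩ := Subgroup.mem_inf.1 hg
    refine Subgroup.mem_inf.2 ⟨hgJ, ?_⟩
    obtain ⟨u, hu, k, hk, hguk⟩ := (mem_sup_iff hU (hK.level s).supp).1 hgs
    have hu1 : u = 1 := by
      refine eq_one_of_trivialAt fun v => ?_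
      by_cases hv : (ℓ : 𝓞 F) ∈ v.asIdeal
      · exact hU u hu v hv
      · have h1 : TrivialAt v g := hJ.supp g hgJ v hv
        have h2 : TrivialAt v k := (hK.level s).supp k hk v hv
        have h3 : u = g * k⁻¹ := by rw [hguk, mul_inv_cancel_right]
        rw [h3]
        exact h1.mul h2.inv
    rw [hguk, hu1, one_mul]
    exact hk
  rw [h1]
  exact isLevel_inf hU hJ _ (hK.level s).isOpen

private theorem T1_tow_level (hU : IsTame ℓ U) (hK : IsUniform ℓ d U K) (hJ : IsLevel ℓ U J) :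
    ∀ s, IsLevel ℓ U (tow K J s)
  | 0 => hK.level 0
  | 1 => hJ
  | s + 2 => T1_isLevel_inf hU hK hJ (s + 2)

omit [Fact ℓ.Prime] in
private theorem T1_tow_anti (hK : IsUniform ℓ d U K) (hle : J ≤ K 0) :
    ∀ s, tow K J (s + 1) ≤ tow K J s
  | 0 => hle
  | 1 => inf_le_left
  | s + 2 => inf_le_inf_left J (hK.anti (s + 2))

theorem tow_isTow (hU : IsTame ℓ U) (hK : IsUniform ℓ d U K) (hJ : IsLevel ℓ U J) (hle : J ≤ K 0) :
    IsTow ℓ U (tow K J) where
  level := T1_tow_level hU hK hJ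
  anti := T1_tow_anti hK hle
  small := by
    intro W hW
    obtain ⟨s, hs⟩ := hK.small W hW
    exact ⟨s + 2, inf_le_right.trans ((hK.K_le (by omega)).trans hs)⟩
  entries := hK.entries
  fin := by
    intro s
    obtain ⟨s', hs'⟩ := exists_level_le hU hK.tow (T1_tow_level hU hK hJ s)
    have h1 : Finite (PP K s') := hK.finite_PP s'
    let f : PP K s' → PP (tow K J) s := Subgroup.quotientMapOfLE
      (Subgroup.comap_mono hs' : (K s').subgroupOf (K 0) ≤ (tow K J s).subgroupOf (K 0))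
    have h2 : Function.Surjective f := by
      intro y
      obtain ⟨x, rfl⟩ := QuotientGroup.mk_surjective y
      exact ⟨QuotientGroup.mk x, rfl⟩
    exact Finite.of_surjective f h2

theorem isUC_of_tow (hU : IsTame ℓ U) (hK : IsUniform ℓ d U K) (hJ : IsLevel ℓ U J) (hle : J ≤ K 0)
    {φ : D.Ad → PadicAlgCl ℓ} (h : IsUC U (tow K J) φ) : IsUC U K φ := by
  have _ := hle
  refine ⟨h.tf, fun ε hε => ?_⟩
  obtain ⟨s, hs⟩ := h.cont ε hε
  obtain ⟨s', hs'⟩ := exists_level_le hU hK.tow (T1_tow_level hU hK hJ s)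
  exact ⟨s', fun k hk g => hs k (hs' hk) g⟩

theorem IsGoodOp.tow (hU : IsTame ℓ U) (hK : IsUniform ℓ d U K) (hJ : IsLevel ℓ U J) (hle : J ≤ K 0)
    {T : Nice ℓ U →ₗ[PadicAlgCl ℓ] Nice ℓ U} (hT : IsGoodOp K S T) : IsGoodOp (ZO.tow K J) S T :=
  ⟨hT.eqv, fun φ C hφ hC => hT.norm φ C (isUC_of_tow hU hK hJ hle hφ) hC, hT.eigen⟩

/-- The projection `K 0 / K s → K 0 / J`. -/
noncomputable def piJ {s : ℕ} (h : K s ≤ J) : PP K s → PP (tow K J) 1 :=
  Subgroup.quotientMapOfLE (Subgroup.comap_mono h : (K s).subgroupOf (K 0) ≤ J.subgroupOf (K 0))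

theorem piJ_mk {s : ℕ} (h : K s ≤ J) (x : K 0) :
    piJ h (QuotientGroup.mk x) = (QuotientGroup.mk x : K 0 ⧸ J.subgroupOf (K 0)) := rfl

theorem piJ_surjective {s : ℕ} (h : K s ≤ J) : Function.Surjective (piJ h) := by
  intro y
  obtain ⟨x, rfl⟩ := QuotientGroup.mk_surjective y
  exact ⟨QuotientGroup.mk x, rfl⟩

theorem piJ_eq_iff [hn : ∀ s, ((K s).subgroupOf (K 0)).Normal] {s : ℕ} (h : K s ≤ J) (x y : PP K s) :
    piJ h x = piJ h y ↔ x⁻¹ * y ∈ (J.subgroupOf (K 0)).map (QuotientGroup.mk' ((K s).subgroupOf (K 0))) := by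
  obtain ⟨x, rfl⟩ := QuotientGroup.mk_surjective x
  obtain ⟨y, rfl⟩ := QuotientGroup.mk_surjective y
  have h1 : piJ h (QuotientGroup.mk x) = piJ h (QuotientGroup.mk y) ↔
      (QuotientGroup.mk x : K 0 ⧸ J.subgroupOf (K 0)) = QuotientGroup.mk y := Iff.rfl
  rw [h1, QuotientGroup.eq]
  constructor
  · intro h2
    exact ⟨x⁻¹ * y, h2, rfl⟩
  · rintro ⟨z, hz, hzxy⟩
    have h3 : (QuotientGroup.mk z : K 0 ⧸ (K s).subgroupOf (K 0)) = QuotientGroup.mk (x⁻¹ * y) := hzxy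
    rw [QuotientGroup.eq] at h3
    have h4 : z⁻¹ * (x⁻¹ * y) ∈ J.subgroupOf (K 0) := h h3
    have h5 := mul_mem hz h4
    rwa [mul_inv_cancel_left] at h5

theorem card_tow : Nat.card (PP (tow K J) 1) = J.relIndex (K 0) := rfl

end Pool.Agent.Lib.MP_666dc0_nt.ZO
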