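import Pool.Agent.Lib.MP_666dc0_nt.ZO.ADefs
import Pool.Agent.Lib.MP_666dc0_nt.Mg.G010

/-!
TASK M1a. Constant weights; integrality of the values of integral polynomials.

* `isWeight_const`: `constSub D` is the span of `1`: finite-dimensional, `span_one_le` of `WL/G5`, `span_one_trans` of `WL/I1`. `finrank_const`: `finrank_span_singleton`, `1 ≠ 0` (evaluate at `1 : D.Cpx`).
* `norm_aeval_le`: `lam ∈ AllSys`: `‖iv ι lam x‖ ≤ 1` (`norm_lam_le_one` of `WL/I1`), the coefficients of `h` have norm `≤ 1`; ultrametric (`MvPolynomial.aeval_def`, `eval₂_eq'`, `Finset.prod_le_one`).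
-/

open NumberField IsDedekindDomain
open scoped NumberField

namespace Pool.Agent.Lib.MP_666dc0_nt.ZO

open WL

variable {F : Type} [Field F] [NumberField F] {n : ℕ} {D : Datum F n} {ℓ : ℕ} [Fact ℓ.Prime]
  {S : Finset (HeightOneSpectrum (𝓞 F))} {U : Subgroup D.Ad}

theorem isWeight_const : IsWeight D (constSub D) where
  fg := Module.Finite.iff_fg.1 (FiniteDimensional.span_singleton ℂ 1)
  mem _ hp := ⟨span_one_le hp, fun y => span_one_trans hp y⟩

theorem finrank_const : Module.finrank ℂ (constSub D) = 1 := by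
  refine finrank_span_singleton ?_
  intro h
  have h1 := congrFun h (1 : D.Cpx)
  exact one_ne_zero h1

theorem norm_aeval_le [IsTotallyReal F] (hD : IsTotPosDef D.q)
    (hSl : ∀ v : HeightOneSpectrum (𝓞 F), (ℓ : 𝓞 F) ∈ v.asIdeal → v ∈ S) (hU : IsTame ℓ U)
    (hUS : ∀ v, v ∉ S → IsGoodAt U v) (ι : ℂ ≃+* PadicAlgCl ℓ) {h : MvPolynomial (IX ℓ S U) (PadicAlgCl ℓ)}
    (hh : IntPoly h) {lam : ∀ v, Hecke U v → ℂ} (hlam : lam ∈ AllSys ℓ S U) :
    ‖MvPolynomial.aeval (iv ι lam) h‖ ≤ 1 := by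
  obtain ⟨K', hK', hlam⟩ := hlam
  have h1 : ∀ x : IX ℓ S U, ‖iv ι lam x‖ ≤ 1 := fun x =>
    norm_lam_le_one hD ℓ S hSl U hU hUS hK' hlam ι x
  rw [MvPolynomial.aeval_def, MvPolynomial.eval₂_eq]
  refine IsUltrametricDist.norm_sum_le_of_forall_le_of_nonneg zero_le_one fun m _ => ?_
  rw [norm_mul, norm_prod]
  refine mul_le_one₀ (hh m) (Finset.prod_nonneg fun x _ => norm_nonneg _) ?_
  refine Finset.prod_le_one (fun x _ => norm_nonneg _) fun x _ => ?_
  rw [norm_pow]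
  exact pow_le_one₀ (norm_nonneg _) (h1 x)

end Pool.Agent.Lib.MP_666dc0_nt.ZO
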