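import Pool.Agent.Lib.MP_666dc0_nt.Mg.G075
import Pool.Agent.Lib.MP_666dc0_nt.Mg.G076
import Pool.Agent.Lib.MP_666dc0_nt.Mg.G078

/-!
TASK Q2. Good bases of spaces of weights.

`𝕂 = PadicAlgCl ℓ`, `Q` a space of weights, `w = finrank ℂ Q`, `Qι = {ι ∘ p | p ∈ Q}`, a `𝕂`-subspace of the functions `D.Cpx → 𝕂` of dimension `w` (`ι ∘ (c • p) = ι c • ι ∘ p`).
(1) For some `N` it is contained in the span of `monsK ι D N` (`exists_mem_span_monsK` for a basis of `Q`, `monsK_mono`).
(2) Let `b : Fin t → ..` be the subbasis of the finite set `monsK ι D N` of `Q2b` (`exists_subbasis`). So every function in the span of `monsK` has unique coordinates with respect to `b`, and every element of `latK ι D N c` (`c ≥ 0`) has coordinates of norm `≤ c` (the monomials have coordinates of norm `≤ 1`).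
(3) Let `W ≤ (Fin t → 𝕂)` be the space of the coordinate vectors of the elements of `Qι` (dimension `w`), `v_1, …, v_w` the orthonormal basis of `Q2a` (`exists_orthonormal`), `q̃_i = ∑ v_i(b) b ∈ Qι` (a basis of `Qι`), `q_i = ι⁻¹ ∘ q̃_i` (a basis of `Q`).
(4) For `k ∈ K 0` and `p ∈ Q` the function `x ↦ p (x * k̂)` is in `Q` (`hQ.trans`), so `q̃_j (x * k̂) = ∑ i, ρ k i j * q̃_i x` with unique `ρ k i j ∈ 𝕂`. `ρ` is a homomorphism: `q̃_j (x * (k k')^) = q̃_j ((x * k̂) * k̂')` (note the order: `∑ i, ρ k' i j * q̃_i (x * k̂) = ∑ i, ρ k' i j * ∑ l, ρ k l i * q̃_l x`, that is `ρ (k k') = ρ k * ρ k'`).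
(5) If `IsCg ℓ m k` then `‖ρ k i j - δ_ij‖ ≤ ℓ⁻¹ ^ m`: `q̃_j (x * k̂) - q̃_j x = ∑_b v_j(b) (b (x * k̂) - b x)` has coordinates (with respect to `b`) of norm `≤ ℓ⁻¹ ^ m` by `translate_sub_mem` and (2), and it is `∑ i (ρ k i j - δ_ij) q̃_i`; apply the last property of the orthonormal basis.
`close`: `m = 2` for all `k ∈ K 0` by `hK.entries`, `ℓ⁻¹ ^ 2 ≤ ℓ⁻¹`. `cont`: `exists_K_le` with `ℓ⁻¹ ^ m ≤ ε`.
(6) `field`: by `exists_points` (Q2a) there are points `x_l` and `A` with `∑ l, A i l * q̃_j (x_l) = δ_ij`; so `ρ k i j = ∑ l, A i l * q̃_j (x_l * k̂)`, and `exists_field_polys`, `exists_field_finite` (for the entries of `A`) give the field.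
-/

open NumberField IsDedekindDomain
open scoped NumberField

namespace Pool.Agent.Lib.MP_666dc0_nt.ZO

open WL

/-- The functions `ι ∘ p`, `p ∈ Q`. -/
private noncomputable def Q2_Qi {X : Type} {ℓ : ℕ} [Fact ℓ.Prime] (ι : ℂ ≃+* PadicAlgCl ℓ)
    (Q : Submodule ℂ (X → ℂ)) : Submodule (PadicAlgCl ℓ) (X → PadicAlgCl ℓ) where
  carrier := {f | (fun x => ι.symm (f x)) ∈ Q}
  add_mem' {f g} hf hg := by
    have h := Q.add_mem hf hg
    have e : ((fun x => ι.symm (f x)) + fun x => ι.symm (g x)) = fun x => ι.symm ((f + g) x) := by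
      funext x
      simp
    rw [e] at h
    exact h
  zero_mem' := by
    have e : (fun x => ι.symm ((0 : X → PadicAlgCl ℓ) x)) = (0 : X → ℂ) := by
      funext x
      simp
    show (fun x => ι.symm ((0 : X → PadicAlgCl ℓ) x)) ∈ Q
    rw [e]
    exact Q.zero_mem
  smul_mem' c f hf := by
    have h := Q.smul_mem (ι.symm c) hf
    have e : (ι.symm c • fun x => ι.symm (f x)) = fun x => ι.symm ((c • f) x) := by
      funext x
      simp
    rw [e] at h
    exact h

private theorem Q2_mem_Qi {X : Type} {ℓ : ℕ} [Fact ℓ.Prime] {ι : ℂ ≃+* PadicAlgCl ℓ}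
    {Q : Submodule ℂ (X → ℂ)} {f : X → PadicAlgCl ℓ} :
    f ∈ Q2_Qi ι Q ↔ (fun x => ι.symm (f x)) ∈ Q := Iff.rfl

private theorem Q2_finrank {X : Type} {ℓ : ℕ} [Fact ℓ.Prime] (ι : ℂ ≃+* PadicAlgCl ℓ)
    (Q : Submodule ℂ (X → ℂ)) :
    Module.finrank (PadicAlgCl ℓ) (Q2_Qi ι Q) = Module.finrank ℂ Q := by
  have h := rank_eq_of_equiv_equiv (R := ℂ) (R' := PadicAlgCl ℓ) (M := Q) (M₁ := Q2_Qi ι Q) ι
    { toFun := fun p => ⟨fun x => ι (p.1 x), by
        rw [Q2_mem_Qi]
        have e : (fun x => ι.symm (ι (p.1 x))) = p.1 := by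
          funext x
          simp
        rw [e]
        exact p.2⟩
      invFun := fun f => ⟨fun x => ι.symm (f.1 x), f.2⟩
      left_inv := fun p => by
        apply Subtype.ext
        funext x
        simp
      right_inv := fun f => by
        apply Subtype.ext
        funext x
        simp
      map_add' := fun p q => by
        apply Subtype.ext
        funext x
        simp } ι.bijective (fun c p => by
        apply Subtype.ext
        funext x
        simp)
  rw [Module.finrank, Module.finrank, h]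

private theorem Q2_lin {X : Type} {ℓ : ℕ} [Fact ℓ.Prime] (Q' : Submodule (PadicAlgCl ℓ) (X → PadicAlgCl ℓ))
    (M : Set (X → PadicAlgCl ℓ)) (hM : M.Finite) (hQM : Q' ≤ Submodule.span (PadicAlgCl ℓ) M) :
    ∃ q : Fin (Module.finrank (PadicAlgCl ℓ) Q') → X → PadicAlgCl ℓ,
      LinearIndependent (PadicAlgCl ℓ) q ∧ Submodule.span (PadicAlgCl ℓ) (Set.range q) = Q' ∧
      ∀ (T : (X → PadicAlgCl ℓ) →ₗ[PadicAlgCl ℓ] (X → PadicAlgCl ℓ)) (C : ℝ), 0 ≤ C →
        (∀ μ ∈ M, ∃ (m : ℕ) (ν : Fin m → X → PadicAlgCl ℓ) (a : Fin m → PadicAlgCl ℓ), (∀ i, ν i ∈ M) ∧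
          (∀ i, ‖a i‖ ≤ C) ∧ T μ = fun x => ∑ i, a i * ν i x) →
        ∀ j (r : Fin (Module.finrank (PadicAlgCl ℓ) Q') → PadicAlgCl ℓ),
          T (q j) = ∑ i, r i • q i → ∀ i, ‖r i‖ ≤ C := by
  obtain ⟨t, b, hbM, hbi, hb⟩ := exists_subbasis (ℓ := ℓ) M hM
  set Φ : (Fin t → PadicAlgCl ℓ) →ₗ[PadicAlgCl ℓ] (X → PadicAlgCl ℓ) :=
    Fintype.linearCombination (PadicAlgCl ℓ) b with hΦ
  have hΦa : ∀ c, Φ c = ∑ i, c i • b i := fun c => Fintype.linearCombination_apply _ _ _
  have hΦi : Function.Injective Φ := linearIndependent_iff_injective_fintypeLinearCombination.1 hbi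
  have hMr : M ⊆ LinearMap.range Φ := by
    intro μ hμ
    obtain ⟨c, -, hc⟩ := hb μ hμ
    exact ⟨c, by rw [hΦa, hc]⟩
  have hQr : Q' ≤ LinearMap.range Φ := hQM.trans (Submodule.span_le.2 hMr)
  have hmap : (Q'.comap Φ).map Φ = Q' := by
    rw [Submodule.map_comap_eq]
    exact inf_eq_right.2 hQr
  have hfr : Module.finrank (PadicAlgCl ℓ) (Q'.comap Φ) = Module.finrank (PadicAlgCl ℓ) Q' := by
    rw [(Submodule.equivMapOfInjective Φ hΦi (Q'.comap Φ)).finrank_eq, hmap]
  have ho := exists_orthonormal (Q'.comap Φ)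
  rw [hfr] at ho
  obtain ⟨v, hv1, hv2, hv3, hv4⟩ := ho
  refine ⟨fun i => Φ (v i), ?_, ?_, ?_⟩
  · exact hv1.map' Φ (LinearMap.ker_eq_bot.2 hΦi)
  · have e : Set.range (fun i => Φ (v i)) = Φ '' Set.range v := by
      rw [← Set.range_comp]; rfl
    rw [e, ← Submodule.map_span, hv2, hmap]
  · intro T C hC hT j r hr
    -- the operator on the basis
    have h1 : ∀ s, ∃ d : Fin t → PadicAlgCl ℓ, (∀ u, ‖d u‖ ≤ C) ∧ T (b s) = Φ d := by
      intro s
      obtain ⟨m, ν, a, hν, ha, hTm⟩ := hT (b s) (hbM s)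
      choose c hc1 hc2 using fun i => hb (ν i) (hν i)
      refine ⟨fun u => ∑ i, a i * c i u, ?_, ?_⟩
      · intro u
        apply IsUltrametricDist.norm_sum_le_of_forall_le_of_nonneg hC
        intro i _
        rw [norm_mul]
        calc ‖a i‖ * ‖c i u‖ ≤ C * 1 := mul_le_mul (ha i) (hc1 i u) (norm_nonneg _) hC
          _ = C := mul_one C
      · rw [hTm, hΦa]
        funext x
        simp only [Finset.sum_apply, Pi.smul_apply, smul_eq_mul, Finset.sum_mul]
        rw [Finset.sum_comm]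
        refine Finset.sum_congr rfl fun i _ => ?_
        have h2 := congrFun (hc2 i) x
        simp only [Finset.sum_apply, Pi.smul_apply, smul_eq_mul] at h2
        rw [h2, Finset.mul_sum]
        exact Finset.sum_congr rfl fun u _ => by ring
    choose d hd1 hd2 using h1
    have h3 : T (Φ (v j)) = Φ (fun u => ∑ s, v j s * d s u) := by
      rw [hΦa (v j), map_sum, hΦa]
      simp only [map_smul, hd2, hΦa]
      funext x
      simp only [Finset.sum_apply, Pi.smul_apply, smul_eq_mul, Finset.sum_mul, Finset.mul_sum]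
      rw [Finset.sum_comm]
      exact Finset.sum_congr rfl fun u _ => Finset.sum_congr rfl fun s _ => by ring
    have h4 : (fun u => ∑ s, v j s * d s u) = fun u => ∑ i, r i * v i u := by
      apply hΦi
      rw [← h3]
      refine hr.trans ?_
      have e : (fun u => ∑ i, r i * v i u) = ∑ i, r i • v i := by
        funext u
        simp [Finset.sum_apply]
      rw [e, map_sum]
      simp only [map_smul]
    refine hv4 r C hC ?_
    intro u
    rw [← congrFun h4 u]
    apply IsUltrametricDist.norm_sum_le_of_forall_le_of_nonneg hC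
    intro s _
    rw [norm_mul]
    calc ‖v j s‖ * ‖d s u‖ ≤ 1 * C := mul_le_mul (hv3 j s) (hd1 s u) (norm_nonneg _) zero_le_one
      _ = C := one_mul C

theorem exists_goodBasis {F : Type} [Field F] [NumberField F] {n : ℕ} {D : Datum F n} {ℓ : ℕ} [Fact ℓ.Prime]
    {ι : ℂ ≃+* PadicAlgCl ℓ} {U : Subgroup D.Ad} {K : ℕ → Subgroup D.Ad} (H : HatData F ℓ ι)
    (hK : IsTow ℓ U K) {Q : Submodule ℂ (D.Cpx → ℂ)} (hQ : IsWeight D Q) :
    Nonempty (GoodBasis H K Q (Module.finrank ℂ Q)) := by
  classical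
  have := hQ.fin
  -- a bound for the degrees
  have hN : ∃ N, Q2_Qi ι Q ≤ Submodule.span (PadicAlgCl ℓ) (monsK ι D N) := by
    let e := Module.finBasis ℂ Q
    choose N hN using fun i => exists_mem_span_monsK ι (hQ.le (e i).2)
    refine ⟨Finset.univ.sup N, ?_⟩
    intro f hf
    have h1 : (⟨fun x => ι.symm (f x), hf⟩ : Q) = ∑ i, e.repr ⟨fun x => ι.symm (f x), hf⟩ i • e i :=
      (e.sum_repr _).symm
    have h2 : f = ∑ i, ι (e.repr ⟨fun x => ι.symm (f x), hf⟩ i) • (fun x => ι ((e i).1 x)) := by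
      funext x
      have h3 := congrFun (congrArg Subtype.val h1) x
      simp only [Submodule.coe_sum, Submodule.coe_smul, Finset.sum_apply, Pi.smul_apply, smul_eq_mul] at h3
      have h4 := congrArg ι h3
      rw [RingEquiv.apply_symm_apply, map_sum] at h4
      rw [h4]
      simp only [map_mul, Finset.sum_apply, Pi.smul_apply, smul_eq_mul]
    rw [h2]
    refine Submodule.sum_mem _ fun i _ => Submodule.smul_mem _ _ ?_
    exact Submodule.span_mono (monsK_mono (Finset.le_sup (Finset.mem_univ i))) (hN i)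
  obtain ⟨N, hN⟩ := hN
  have hlin := Q2_lin (Q2_Qi ι Q) (monsK ι D N) (finite_monsK ι D N) hN
  rw [Q2_finrank ι Q] at hlin
  obtain ⟨qt, hq1, hq2, hq3⟩ := hlin
  have hmemq : ∀ j, qt j ∈ Q2_Qi ι Q := fun j => by
    rw [← hq2]
    exact Submodule.subset_span ⟨j, rfl⟩
  -- uniqueness of the coordinates
  have huniq : ∀ r r' : Fin (Module.finrank ℂ Q) → PadicAlgCl ℓ,
      (∀ x, ∑ i, r i * qt i x = ∑ i, r' i * qt i x) → r = r' := by
    intro r r' h
    rw [Fintype.linearIndependent_iff] at hq1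
    have h1 := hq1 (fun i => r i - r' i) (by
      funext x
      simp only [Finset.sum_apply, Pi.smul_apply, smul_eq_mul, sub_mul, Finset.sum_sub_distrib, Pi.zero_apply]
      rw [h x, sub_self])
    funext i
    exact sub_eq_zero.1 (h1 i)
  -- the matrices
  have hex : ∀ (k : K 0) (j : Fin (Module.finrank ℂ Q)), ∃ c : Fin (Module.finrank ℂ Q) → PadicAlgCl ℓ,
      ∀ x, qt j (x * H.hat D k) = ∑ i, c i * qt i x := by
    intro k j
    have h1 : (fun x => qt j (x * H.hat D k)) ∈ Q2_Qi ι Q := by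
      rw [Q2_mem_Qi]
      exact hQ.trans _ (hmemq j) (H.hat D k)
    rw [← hq2, Submodule.mem_span_range_iff_exists_fun] at h1
    obtain ⟨c, hc⟩ := h1
    refine ⟨c, fun x => ?_⟩
    have h2 := congrFun hc x
    simp only [Finset.sum_apply, Pi.smul_apply, smul_eq_mul] at h2
    exact h2.symm
  choose c hc using hex
  let ρ : K 0 →* Matrix (Fin (Module.finrank ℂ Q)) (Fin (Module.finrank ℂ Q)) (PadicAlgCl ℓ) :=
    { toFun := fun k => Matrix.of fun i j => c k j i
      map_one' := by
        ext i j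
        have h1 : c 1 j = fun i => (1 : Matrix (Fin (Module.finrank ℂ Q)) (Fin (Module.finrank ℂ Q)) (PadicAlgCl ℓ)) i j := by
          apply huniq
          intro x
          rw [← hc 1 j x]
          have h2 : H.hat D ((1 : K 0) : D.Ad) = 1 := by
            rw [OneMemClass.coe_one, map_one]
          rw [h2, mul_one]
          simp [Matrix.one_apply]
        exact congrFun h1 i
      map_mul' := by
        intro k k'
        ext i j
        have h1 : c (k * k') j = fun i => ∑ l, c k l i * c k' j l := by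
          apply huniq
          intro x
          rw [← hc (k * k') j x]
          have h2 : H.hat D ((k * k' : K 0) : D.Ad) = H.hat D (k : D.Ad) * H.hat D (k' : D.Ad) := by
            rw [Subgroup.coe_mul, map_mul]
          rw [h2, ← mul_assoc, hc k' j (x * H.hat D k)]
          simp only [hc k _ x, Finset.mul_sum, Finset.sum_mul]
          rw [Finset.sum_comm]
          exact Finset.sum_congr rfl fun l _ => Finset.sum_congr rfl fun s _ => by ring
        rw [Matrix.mul_apply]
        exact congrFun h1 i }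
  have hρ : ∀ k i j, ρ k i j = c k j i := fun k i j => rfl
  have hbound : ∀ (m : ℕ) (k : K 0), IsCg ℓ m (k : D.Ad) → ∀ i j,
      ‖ρ k i j - (1 : Matrix (Fin (Module.finrank ℂ Q)) (Fin (Module.finrank ℂ Q)) (PadicAlgCl ℓ)) i j‖ ≤
        (ℓ : ℝ)⁻¹ ^ m := by
    intro m k hk i j
    let T : (D.Cpx → PadicAlgCl ℓ) →ₗ[PadicAlgCl ℓ] (D.Cpx → PadicAlgCl ℓ) :=
      { toFun := fun f => fun x => f (x * H.hat D k) - f x
        map_add' := fun f g => by
          funext x
          simp only [Pi.add_apply]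
          ring
        map_smul' := fun a f => by
          funext x
          simp only [Pi.smul_apply, smul_eq_mul, RingHom.id_apply]
          ring }
    refine hq3 T ((ℓ : ℝ)⁻¹ ^ m) (by positivity) ?_ j
      (fun i => ρ k i j - (1 : Matrix (Fin (Module.finrank ℂ Q)) (Fin (Module.finrank ℂ Q)) (PadicAlgCl ℓ)) i j) ?_ i
    · intro μ hμ
      exact translate_sub_mem H hk hμ
    · funext x
      show qt j (x * H.hat D k) - qt j x = _
      rw [hc k j x]
      simp only [Finset.sum_apply, Pi.smul_apply, smul_eq_mul, sub_mul, Finset.sum_sub_distrib, hρ]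
      congr 1
      simp [Matrix.one_apply]
  have hℓ : (ℓ : ℝ)⁻¹ < 1 := by
    apply inv_lt_one_of_one_lt₀
    exact_mod_cast (Fact.out : ℓ.Prime).one_lt
  have hℓ0 : (0 : ℝ) ≤ (ℓ : ℝ)⁻¹ := by positivity
  refine ⟨{
    q := fun j x => ι.symm (qt j x)
    ρ := ρ
    indep := ?_
    span := ?_
    act := ?_
    small := ⟨?_, ?_, ?_⟩ }⟩
  · rw [Fintype.linearIndependent_iff]
    intro a ha i
    have h1 : (fun i => ι (a i)) = fun _ => (0 : PadicAlgCl ℓ) := by
      apply huniq
      intro x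
      have h2 := congrArg ι (congrFun ha x)
      simp only [Finset.sum_apply, Pi.smul_apply, smul_eq_mul, map_sum, map_mul, RingEquiv.apply_symm_apply,
        Pi.zero_apply, map_zero] at h2
      rw [h2]
      simp
    have h3 := congrFun h1 i
    simpa using h3
  · apply le_antisymm
    · rw [Submodule.span_le]
      rintro _ ⟨j, rfl⟩
      exact hmemq j
    · intro p hp
      have h1 : (fun x => ι (p x)) ∈ Q2_Qi ι Q := by
        rw [Q2_mem_Qi]
        simpa using hp
      rw [← hq2, Submodule.mem_span_range_iff_exists_fun] at h1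
      obtain ⟨a, ha⟩ := h1
      rw [Submodule.mem_span_range_iff_exists_fun]
      refine ⟨fun i => ι.symm (a i), ?_⟩
      funext x
      have h2 := congrArg ι.symm (congrFun ha x)
      simp only [Finset.sum_apply, Pi.smul_apply, smul_eq_mul, map_sum, map_mul,
        RingEquiv.symm_apply_apply] at h2
      simp only [Finset.sum_apply, Pi.smul_apply, smul_eq_mul]
      exact h2
  · intro k j x
    simp only [RingEquiv.apply_symm_apply]
    exact hc k j x
  · intro k i j
    refine (hbound 2 k (fun i j => hK.entries k k.2 i j) i j).trans ?_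
    calc (ℓ : ℝ)⁻¹ ^ 2 ≤ (ℓ : ℝ)⁻¹ ^ 1 := pow_le_pow_of_le_one hℓ0 hℓ.le (by norm_num)
      _ = (ℓ : ℝ)⁻¹ := pow_one _
  · obtain ⟨x, A, hA⟩ := exists_points qt hq1
    have hpoly : ∀ j, (fun y => ι.symm (qt j y)) ∈ polyFun D := fun j => hQ.le (hmemq j)
    obtain ⟨L, hL1, hL2⟩ := exists_field_polys H (fun (j : Fin (Module.finrank ℂ Q)) => fun y => ι.symm (qt j y))
      hpoly x
    obtain ⟨L', hL'1, hL'2⟩ := exists_field_finite (ℓ := ℓ) (Set.range fun p : Fin (Module.finrank ℂ Q) × Fin (Module.finrank ℂ Q) => A p.1 p.2)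
      (Set.finite_range _)
    refine ⟨L ⊔ L', inferInstance, ?_⟩
    intro k i j
    have h1 : ρ k i j = ∑ l, A i l * qt j (x l * H.hat D k) := by
      have h2 : ∀ l, A i l * qt j (x l * H.hat D k) = ∑ i', c k j i' * (A i l * qt i' (x l)) := by
        intro l
        rw [hc k j (x l), Finset.mul_sum]
        exact Finset.sum_congr rfl fun i' _ => by ring
      simp only [h2]
      rw [Finset.sum_comm]
      simp only [← Finset.mul_sum, hA i, hρ]
      simp
    rw [h1]
    refine sum_mem fun l _ => mul_mem ((le_sup_right : L' ≤ L ⊔ L') (hL'2 _ ⟨(i, l), rfl⟩)) ?_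
    have h3 := hL2 j l k
    simp only [RingEquiv.apply_symm_apply] at h3
    exact (le_sup_left : L ≤ L ⊔ L') h3
  · intro ε hε
    obtain ⟨m, hm⟩ := exists_pow_lt_of_lt_one hε hℓ
    obtain ⟨s, hs⟩ := exists_K_le hK m
    exact ⟨s, fun k hk i j => (hbound m k (hs k hk) i j).trans hm.le⟩

end Pool.Agent.Lib.MP_666dc0_nt.ZO
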