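import Pool.Agent.Lib.MP_666dc0_nt.ZO.R3

/-!
TASK R4. Compatible systems.

`b s₀ ≠ 0`, and `Fil k (P s₀) C₀ = ⊥` for some `C₀` (`fil_nilpotent`), so `b s₀ ∉ Fil C₀`; `mapDomain` maps `Fil k (P (s+1)) C₀` into `Fil k (P s) C₀` (`fil_map`), so `b s ∉ Fil C₀` for all `s ≥ s₀` (induction).
Put `C = max C₀ (ℓ ^ s₀)`: for `s < s₀` the left side is `≤ 0`; for `s ≥ s₀` use `rank_mulLeft_ge`.
-/

namespace Pool.Agent.Lib.MP_666dc0_nt.ZO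

theorem rank_tower (k : Type) [Field k] {ℓ : ℕ} [Fact ℓ.Prime] [CharP k ℓ] {d : ℕ} (P : ℕ → Type)
    [∀ s, Group (P s)] [∀ s, Finite (P s)] (pr : ∀ s, P (s + 1) →* P s)
    (hP : ∀ s, ∃ g : Fin d → P s, IsUG ℓ (ℓ ^ s) d (P s) g) (b : ∀ s, MonoidAlgebra k (P s))
    (hb : ∀ s, MonoidAlgebra.mapDomain (pr s) (b (s + 1)) = b s) (s₀ : ℕ) (h0 : b s₀ ≠ 0) :
    ∃ C : ℝ, ∀ s, (1 - C / (ℓ : ℝ) ^ s) * (ℓ : ℝ) ^ (s * d) ≤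
      (Module.finrank k (LinearMap.range (LinearMap.mulLeft k (b s))) : ℝ) := by
  have hl : (1 : ℝ) < (ℓ : ℝ) := by exact_mod_cast (Fact.out : ℓ.Prime).one_lt
  have hl0 : (0 : ℝ) < (ℓ : ℝ) := by linarith
  obtain ⟨C₀, hC₀⟩ : ∃ M : ℕ, Fil k (P s₀) M = ⊥ := by
    obtain ⟨g, hg⟩ := hP s₀
    refine fil_nilpotent (k := k) (ℓ := ℓ) (P s₀) ?_
    apply IsPGroup.of_card (n := s₀ * d)
    rw [hg.card, pow_mul]
  have hnot : ∀ j : ℕ, b (s₀ + j) ∉ Fil k (P (s₀ + j)) C₀ := by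
    intro j
    induction j with
    | zero =>
      intro h
      have h' : b s₀ ∈ Fil k (P s₀) C₀ := h
      rw [hC₀, Submodule.mem_bot] at h'
      exact h0 h'
    | succ j ih =>
      intro h
      apply ih
      have h1 := fil_map (k := k) (pr (s₀ + j)) C₀ (a := b (s₀ + j + 1)) h
      rw [hb] at h1
      exact h1
  refine ⟨max (C₀ : ℝ) ((ℓ : ℝ) ^ s₀), fun s => ?_⟩
  have hls : (0 : ℝ) < (ℓ : ℝ) ^ s := by positivity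
  rcases Nat.lt_or_ge s s₀ with hs | hs
  · have h1 : (ℓ : ℝ) ^ s ≤ max (C₀ : ℝ) ((ℓ : ℝ) ^ s₀) :=
      (pow_le_pow_right₀ hl.le hs.le).trans (le_max_right _ _)
    have h2 : 1 ≤ max (C₀ : ℝ) ((ℓ : ℝ) ^ s₀) / (ℓ : ℝ) ^ s := by
      rw [one_le_div hls]; exact h1
    have h3 : (1 - max (C₀ : ℝ) ((ℓ : ℝ) ^ s₀) / (ℓ : ℝ) ^ s) * (ℓ : ℝ) ^ (s * d) ≤ 0 := by
      apply mul_nonpos_of_nonpos_of_nonneg
      · linarith
      · positivity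
    exact h3.trans (Nat.cast_nonneg _)
  · obtain ⟨j, rfl⟩ := Nat.exists_eq_add_of_le hs
    obtain ⟨g, hg⟩ := hP (s₀ + j)
    have h1 := rank_mulLeft_ge k hg C₀ (b (s₀ + j)) (hnot j)
    refine le_trans ?_ h1
    apply mul_le_mul_of_nonneg_right _ (by positivity)
    have h2 : (C₀ : ℝ) / (ℓ : ℝ) ^ (s₀ + j) ≤ max (C₀ : ℝ) ((ℓ : ℝ) ^ s₀) / (ℓ : ℝ) ^ (s₀ + j) :=
      div_le_div_of_nonneg_right (le_max_left _ _) hls.le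
    linarith

end Pool.Agent.Lib.MP_666dc0_nt.ZO
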