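import Pool.Agent.Lib.MP_666dc0_nt.Mg.G077
import Pool.Agent.Lib.MP_666dc0_nt.ZO.L1
import Pool.Agent.Lib.MP_666dc0_nt.ZO.R4

/-!
TASK M5. The element of the completed group algebra given by an operator.

`b s = ∑ x, app (mT c T s (r', x) (r₀, 1)) • single x` (a finite sum; or `Finsupp.equivFunOnFinite.symm`), for `r' r₀ : c.R` to be chosen.
* compatibility: `pr = prP hK.anti s`. `mapDomain pr (b (s + 1))` at `x` is `∑ x' with pr x' = x, app (mT c T (s + 1) (r', x') (r₀, 1))`. Fix one `x'` with `pr x' = x`; the others are the `x' * y⁻¹` with `pr y = 1`, and `mT c T (s + 1) (r', x' * y⁻¹) (r₀, 1) = mT c T (s + 1) (r', x') (r₀, y)` (`mT_mul`). So the sum is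
  `app (∑_{y, pr y = 1} mT c T (s + 1) (r', x') (r₀, y))` (`Red.app_sum`), and `∑_{pr y = 1} dlt (s + 1) (r₀, y) = dlt s (r₀, 1)` pointwise (`prP_mk`: `pr (mk (kap g)) = mk (kap g)`), so the sum is `(T (dlt s (r₀, 1))) (bp (s + 1) (r', x'))`, and `T (dlt s (r₀, 1))` is right invariant under `K s` (`isLC_T`, `isLC_dlt`), hence its value there is the value at
  `bp s (r', x)` (`Chart.lc_eq`, `Chart.cls_bp`, `Chart.kap_bp`, `prP_mk`), which is `mT c T s (r', x) (r₀, 1)`.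
* non-zero: `hT.unit` gives `s`, `φ`, `g` with `‖(T φ) g‖ = 1`, `‖φ‖ ≤ 1`, and `(T φ) g = ∑ p, φ (bp s p) * (T (dlt s p)) g` (`T_eq_sum`), so `‖(T (dlt s p)) g‖ ≥ 1` for some `p = (r₀, y)`. With `r' = cls g`, `x = mk (kap g)`: `(T (dlt s p)) g = mT c T s (r', x) (r₀, y) = mT c T s (r', x * y⁻¹) (r₀, 1)` (`Chart.lc_eq`, `mT_mul`), so `(b s).coeff (x * y⁻¹) ≠ 0`
  (`Red.app_eq_zero_iff`). (Choose `r'`, `r₀` in this way.)
-/

open NumberField IsDedekindDomain
open scoped NumberField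

namespace Pool.Agent.Lib.MP_666dc0_nt.ZO

open WL

/-- The coefficients of the image of an element of a group algebra. -/
private lemma mapDomain_coeff {k : Type} [Field k] {P P' : Type} [Fintype P] [DecidableEq P']
    (f : P → P') (b : MonoidAlgebra k P) (x : P') :
    (MonoidAlgebra.mapDomain f b).coeff x = ∑ x' : P, if f x' = x then b.coeff x' else 0 := by
  classical
  have h1 : (MonoidAlgebra.mapDomain f b).coeff = Finsupp.mapDomain f b.coeff := rfl
  rw [h1, Finsupp.mapDomain, Finsupp.sum_apply, Finsupp.sum_fintype]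
  · refine Finset.sum_congr rfl fun x' _ => ?_
    rw [Finsupp.single_apply]
  · intro i
    rw [Finsupp.single_zero, Finsupp.zero_apply]

/-- An element of the group algebra with given coefficients. -/
private noncomputable def mkEl {k : Type} [Field k] {P : Type} [Finite P] (f : P → k) : MonoidAlgebra k P :=
  ⟨Finsupp.equivFunOnFinite.symm f⟩

private lemma mkEl_coeff {k : Type} [Field k] {P : Type} [Finite P] (f : P → k) (x : P) :
    (mkEl f).coeff x = f x := rfl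

open Classical in
/-- The sum of the indicator functions over a fibre. -/
private lemma sum_dlt {F : Type} [Field F] [NumberField F] {n : ℕ} {D : Datum F n} {ℓ : ℕ} [Fact ℓ.Prime]
    {U : Subgroup D.Ad} {K : ℕ → Subgroup D.Ad}
    [hnorm : ∀ s, ((K s).subgroupOf (K 0)).Normal] (hanti : ∀ s, K (s + 1) ≤ K s)
    (c : Chart U K) (s : ℕ) [Fintype (PP K (s + 1))] (r₀ : c.R) :
    ∑ y : PP K (s + 1), (if prP hanti s y = 1 then c.dlt ℓ (s + 1) (r₀, y) else 0) = c.dlt ℓ s (r₀, 1) := by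
  refine Subtype.ext ?_
  funext g
  have h1 : (∑ y : PP K (s + 1), (if prP hanti s y = 1 then c.dlt ℓ (s + 1) (r₀, y) else 0)).1 g =
      ∑ y : PP K (s + 1), (if prP hanti s y = 1 then (c.dlt ℓ (s + 1) (r₀, y)).1 g else 0) := by
    rw [AddSubmonoidClass.coe_finsetSum, Finset.sum_apply]
    refine Finset.sum_congr rfl fun y _ => ?_
    split_ifs
    · rfl
    · rfl
  rw [h1]
  have h2 : ∀ y : PP K (s + 1), (c.dlt ℓ (s + 1) (r₀, y)).1 g =
      if ((c.cls g, (QuotientGroup.mk (c.kap g) : PP K (s + 1))) = (r₀, y)) then 1 else 0 := fun y => rfl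
  have h3 : (c.dlt ℓ s (r₀, 1)).1 g =
      if ((c.cls g, (QuotientGroup.mk (c.kap g) : PP K s)) = (r₀, 1)) then 1 else 0 := rfl
  rw [h3]
  have h4 := prP_mk hanti s (c.kap g)
  rw [Finset.sum_eq_single (QuotientGroup.mk (c.kap g) : PP K (s + 1))]
  · rw [h4, h2]
    by_cases hr : c.cls g = r₀
    · by_cases hy : (QuotientGroup.mk (c.kap g) : PP K s) = 1
      · rw [if_pos hy, if_pos (by rw [hr]), if_pos (by rw [hr, hy])]
      · rw [if_neg hy, if_neg (fun h => hy (congrArg Prod.snd h))]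
    · rw [if_neg (fun h => hr (congrArg Prod.fst h)), if_neg (fun h => hr (congrArg Prod.fst h)), ite_self]
  · intro y _ hy
    rw [h2, if_neg (fun h => hy (congrArg Prod.snd h).symm), ite_self]
  · intro h
    exact absurd (Finset.mem_univ _) h

theorem exists_tower {F : Type} [Field F] [NumberField F] {n : ℕ} {D : Datum F n} {ℓ : ℕ} [Fact ℓ.Prime]
    {S : Finset (HeightOneSpectrum (𝓞 F))} {U : Subgroup D.Ad} {K : ℕ → Subgroup D.Ad}
    [hnorm : ∀ s, ((K s).subgroupOf (K 0)).Normal] {ι : ℂ ≃+* PadicAlgCl ℓ}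
    {T : Nice ℓ U →ₗ[PadicAlgCl ℓ] Nice ℓ U} {P : (∀ v, Hecke U v → ℂ) → Prop} {k : Type} [Field k]
    (r : Red ℓ k) (c : Chart U K) (hU : IsTame ℓ U) (hK : IsTow ℓ U K) (hT : Killer K ι S P T) :
    ∃ (r' r₀ : c.R) (b : ∀ s, MonoidAlgebra k (PP K s)),
      (∀ s x, (b s).coeff x = r.app (mT c T s (r', x) (r₀, 1))) ∧
      (∀ s, MonoidAlgebra.mapDomain (prP hK.anti s) (b (s + 1)) = b s) ∧ ∃ s, b s ≠ 0 := by
  classical
  have hsupp := (hK.level 0).supp
  have hgood := hT.good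
  have hfin : ∀ s, Finite (PP K s) := fun s => hK.finite_PP s
  have hft : ∀ s, Fintype (PP K s) := fun s => Fintype.ofFinite _
  obtain ⟨s₀, φ, hφ, hφ1, g₀, hg₀⟩ := hT.unit
  -- a matrix entry of norm `≥ 1`
  obtain ⟨p, hp⟩ : ∃ p : c.R × PP K s₀, 1 ≤ ‖(T (c.dlt ℓ s₀ p)).1 g₀‖ := by
    by_contra hcon
    push Not at hcon
    have h1 := T_eq_sum (T := T) c hU hK hφ g₀
    have : Nonempty (c.R × PP K s₀) := ⟨(c.cls g₀, QuotientGroup.mk (c.kap g₀))⟩
    obtain ⟨p, -, hp⟩ := IsUltrametricDist.exists_norm_finsetSum_le (Finset.univ : Finset (c.R × PP K s₀))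
      (fun p => φ.1 (c.bp s₀ p) * (T (c.dlt ℓ s₀ p)).1 g₀)
    have h2 : ‖φ.1 (c.bp s₀ p) * (T (c.dlt ℓ s₀ p)).1 g₀‖ < 1 := by
      rw [norm_mul]
      calc ‖φ.1 (c.bp s₀ p)‖ * ‖(T (c.dlt ℓ s₀ p)).1 g₀‖ ≤ 1 * ‖(T (c.dlt ℓ s₀ p)).1 g₀‖ :=
            mul_le_mul_of_nonneg_right (hφ1 _) (norm_nonneg _)
        _ < 1 := by rw [one_mul]; exact hcon p
    rw [h1] at hg₀
    have h3 : (1 : ℝ) < 1 := by
      calc (1 : ℝ) = ‖∑ p : c.R × PP K s₀, φ.1 (c.bp s₀ p) * (T (c.dlt ℓ s₀ p)).1 g₀‖ := hg₀.symm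
        _ ≤ ‖φ.1 (c.bp s₀ p) * (T (c.dlt ℓ s₀ p)).1 g₀‖ := hp
        _ < 1 := h2
    exact lt_irrefl _ h3
  obtain ⟨r₀, y₀⟩ := p
  have hlc : ∀ s (q : c.R × PP K s), IsLC U K s (T (c.dlt ℓ s q)).1 := fun s q =>
    isLC_T hgood hK (isLC_dlt c hK s q)
  refine ⟨c.cls g₀, r₀, fun s => mkEl fun x => r.app (mT c T s (c.cls g₀, x) (r₀, 1)),
    fun s x => rfl, fun s => ?_, s₀, fun hzero => ?_⟩
  · refine MonoidAlgebra.ext ?_
    ext x
    rw [mapDomain_coeff, mkEl_coeff]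
    obtain ⟨x₀, hx₀⟩ : ∃ x₀ : PP K (s + 1), prP hK.anti s x₀ = x := by
      induction x using QuotientGroup.induction_on with
      | H z => exact ⟨QuotientGroup.mk z, prP_mk hK.anti s z⟩
    -- reindex
    have h1 : (∑ x' : PP K (s + 1), if prP hK.anti s x' = x then
        (mkEl fun x => r.app (mT c T (s + 1) (c.cls g₀, x) (r₀, 1))).coeff x' else 0) =
        ∑ y : PP K (s + 1), if prP hK.anti s y = 1 then
          r.app (mT c T (s + 1) (c.cls g₀, x₀) (r₀, y)) else 0 := by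
      refine Fintype.sum_equiv ((Equiv.inv (PP K (s + 1))).trans (Equiv.mulRight x₀)) _ _ fun x' => ?_
      have he : ((Equiv.inv (PP K (s + 1))).trans (Equiv.mulRight x₀)) x' = x'⁻¹ * x₀ := rfl
      rw [he, mkEl_coeff]
      have h2 : prP hK.anti s (x'⁻¹ * x₀) = 1 ↔ prP hK.anti s x' = x := by
        rw [map_mul, map_inv, hx₀, inv_mul_eq_one]
      have h3 : mT c T (s + 1) (c.cls g₀, x₀) (r₀, x'⁻¹ * x₀) = mT c T (s + 1) (c.cls g₀, x') (r₀, 1) := by
        have h4 := mT_mul c hgood hU hK (s + 1) (c.cls g₀) r₀ x' 1 (x'⁻¹ * x₀)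
        rw [mul_inv_cancel_left, one_mul] at h4
        exact h4
      rw [h3]
      by_cases hx' : prP hK.anti s x' = x
      · rw [if_pos hx', if_pos (h2.2 hx')]
      · rw [if_neg hx', if_neg (fun h => hx' (h2.1 h))]
    rw [h1]
    have h5 : ∀ y : PP K (s + 1), (if prP hK.anti s y = 1 then
        r.app (mT c T (s + 1) (c.cls g₀, x₀) (r₀, y)) else 0) =
        r.app ((T (if prP hK.anti s y = 1 then c.dlt ℓ (s + 1) (r₀, y) else 0)).1 (c.bp (s + 1) (c.cls g₀, x₀))) := by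
      intro y
      by_cases hy : prP hK.anti s y = 1
      · rw [if_pos hy, if_pos hy]; rfl
      · rw [if_neg hy, if_neg hy, map_zero]
        exact r.app_zero.symm
    rw [Finset.sum_congr rfl fun y _ => h5 y, ← r.app_sum]
    · have h6 : ∑ y : PP K (s + 1), (T (if prP hK.anti s y = 1 then c.dlt ℓ (s + 1) (r₀, y) else 0)).1
          (c.bp (s + 1) (c.cls g₀, x₀)) = (T (c.dlt ℓ s (r₀, 1))).1 (c.bp (s + 1) (c.cls g₀, x₀)) := by
        rw [← sum_dlt hK.anti c s r₀, map_sum, AddSubmonoidClass.coe_finsetSum, Finset.sum_apply]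
      rw [h6]
      have h7 := c.lc_eq hU hsupp (hlc s (r₀, 1)) (c.bp (s + 1) (c.cls g₀, x₀))
      have h8 : (QuotientGroup.mk (c.kap (c.bp (s + 1) (c.cls g₀, x₀))) : PP K s) = x := by
        rw [← prP_mk hK.anti s, c.kap_bp]
        exact hx₀
      rw [c.cls_bp, h8] at h7
      rw [h7]
      rfl
    · intro y _
      by_cases hy : prP hK.anti s y = 1
      · rw [if_pos hy]
        exact norm_mT_le c hgood hK (s + 1) (c.cls g₀, x₀) (r₀, y)
      · rw [if_neg hy, map_zero]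
        change ‖(0 : PadicAlgCl ℓ)‖ ≤ 1
        rw [norm_zero]
        exact zero_le_one
  · have h1 : r.app (mT c T s₀ (c.cls g₀, QuotientGroup.mk (c.kap g₀) * y₀⁻¹) (r₀, 1)) = 0 := by
      have h2 := congrArg (fun b : MonoidAlgebra k (PP K s₀) =>
        b.coeff (QuotientGroup.mk (c.kap g₀) * y₀⁻¹)) hzero
      exact h2
    rw [r.app_eq_zero_iff (norm_mT_le c hgood hK _ _ _)] at h1
    have h3 := mT_mul c hgood hU hK s₀ (c.cls g₀) r₀ (QuotientGroup.mk (c.kap g₀) * y₀⁻¹) 1 y₀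
    rw [inv_mul_cancel_right, one_mul] at h3
    rw [← h3] at h1
    have h4 := c.lc_eq hU hsupp (hlc s₀ (r₀, y₀)) g₀
    have h5 : (T (c.dlt ℓ s₀ (r₀, y₀))).1 g₀ =
        mT c T s₀ (c.cls g₀, QuotientGroup.mk (c.kap g₀)) (r₀, y₀) := h4
    rw [h5] at hp
    exact absurd h1 (not_lt.2 hp)

end Pool.Agent.Lib.MP_666dc0_nt.ZO
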