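import Mathlib

/-!
# Group algebras of finite uniform groups: definitions (complete, NOT a task)
-/

namespace Pool.Agent.Lib.MP_666dc0_nt.ZO

/-- The exponent in the definition of powerful pro-`ℓ` groups. -/
def pe (ℓ : ℕ) : ℕ := if ℓ = 2 then 4 else ℓ

/-- `P` is the quotient of exponent `q` of a uniform pro-`ℓ` group of dimension `d` with the generators
`g`. -/
structure IsUG (ℓ q d : ℕ) (P : Type) [Group P] (g : Fin d → P) : Prop where
  card : Nat.card P = q ^ d
  gen : Subgroup.closure (Set.range g) = ⊤
  pow : ∀ i, g i ^ q = 1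
  comm : ∀ x y : P, x * y * x⁻¹ * y⁻¹ ∈ Subgroup.closure {z : P | ∃ t : P, z = t ^ pe ℓ}

variable (k : Type) [Field k] (P : Type) [Group P]

/-- The augmentation ideal. -/
noncomputable def aug : Submodule k (MonoidAlgebra k P) :=
  Submodule.span k {a | ∃ x : P, a = MonoidAlgebra.single x 1 - 1}

/-- The powers of the augmentation ideal. -/
noncomputable def Fil : ℕ → Submodule k (MonoidAlgebra k P)
  | 0 => ⊤
  | m + 1 => aug k P * Fil m

variable {P}

/-- The element `x - 1`. -/
noncomputable def dl (x : P) : MonoidAlgebra k P := MonoidAlgebra.single x 1 - 1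

/-- The ordered monomial `∏ (g i - 1) ^ α i`. -/
noncomputable def mono {d : ℕ} (g : Fin d → P) (α : Fin d → ℕ) : MonoidAlgebra k P :=
  (List.ofFn fun i => dl k (g i) ^ α i).prod

end Pool.Agent.Lib.MP_666dc0_nt.ZO
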