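import Pool.Agent.Lib.MP_666dc0_nt.ZO.XDefs

/-!
# Operators: definitions (complete, NOT a task)
-/

open NumberField IsDedekindDomain
open scoped NumberField

namespace Pool.Agent.Lib.MP_666dc0_nt.ZO

open WL

variable {F : Type} [Field F] [NumberField F] {n : ℕ} {D : Datum F n} {ℓ : ℕ} [Fact ℓ.Prime]
  {S : Finset (HeightOneSpectrum (𝓞 F))} {U : Subgroup D.Ad}

/-- `op` is the action of the polynomials in the Hecke operators on the right `U`-invariant functions. -/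
structure IsOp (op : MvPolynomial (IX ℓ S U) (PadicAlgCl ℓ) →ₐ[PadicAlgCl ℓ] Module.End (PadicAlgCl ℓ) (FU ℓ U)) :
    Prop where
  X : ∀ (x : IX ℓ S U) (φ : FU ℓ U), (op (MvPolynomial.X x) φ).1 = x.1.2.actK φ.1

/-- All coefficients are integral. -/
def IntPoly (P : MvPolynomial (IX ℓ S U) (PadicAlgCl ℓ)) : Prop := ∀ m, ‖P.coeff m‖ ≤ 1

/-- `T` commutes with left translations and with the right translations by elements at `ℓ`. -/
structure IsEqv (T : Nice ℓ U →ₗ[PadicAlgCl ℓ] Nice ℓ U) : Prop where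
  right : ∀ y : D.Ad, AtEll ℓ y → ∀ φ ψ : Nice ℓ U, (∀ g, ψ.1 g = φ.1 (g * y)) → ∀ g, (T ψ).1 g = (T φ).1 (g * y)
  left : ∀ (z : D.Ad) (φ ψ : Nice ℓ U), (∀ g, ψ.1 g = φ.1 (z * g)) → ∀ g, (T ψ).1 g = (T φ).1 (z * g)

/-- An operator on the bounded functions which is equivariant, does not increase the norms of uniformly
continuous functions, and acts by a scalar on the eigenfunctions with the same eigenvalues. -/
structure IsGoodOp (K : ℕ → Subgroup D.Ad) (S : Finset (HeightOneSpectrum (𝓞 F)))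
    (T : Nice ℓ U →ₗ[PadicAlgCl ℓ] Nice ℓ U) : Prop where
  eqv : IsEqv T
  norm : ∀ (φ : Nice ℓ U) (C : ℝ), IsUC U K φ.1 → (∀ g, ‖φ.1 g‖ ≤ C) → ∀ g, ‖(T φ).1 g‖ ≤ C
  eigen : ∀ c : IX ℓ S U → PadicAlgCl ℓ, ∃ a : PadicAlgCl ℓ, ∀ φ : Nice ℓ U, IsEF S U φ.1 c → T φ = a • φ

/-- An operator which kills the eigenfunctions whose system has the property `P`, and has norm `1` on
the locally constant functions. -/
structure Killer (K : ℕ → Subgroup D.Ad) (ι : ℂ ≃+* PadicAlgCl ℓ) (S : Finset (HeightOneSpectrum (𝓞 F)))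
    (P : (∀ v, Hecke U v → ℂ) → Prop) (T : Nice ℓ U →ₗ[PadicAlgCl ℓ] Nice ℓ U) : Prop where
  good : IsGoodOp K S T
  kill : ∀ e, P e → ∀ φ : Nice ℓ U, IsEF S U φ.1 (iv ι e) → T φ = 0
  unit : ∃ s, ∃ φ : Nice ℓ U, IsLC U K s φ.1 ∧ (∀ g, ‖φ.1 g‖ ≤ 1) ∧ ∃ g, ‖(T φ).1 g‖ = 1

end Pool.Agent.Lib.MP_666dc0_nt.ZO
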