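import Pool.Agent.Lib.MP_666dc0_nt.WL.G5

/-!
# A zero-one law for the question of Buzzard and Gee: definitions
-/

open NumberField IsDedekindDomain TensorProduct
open scoped NumberField TensorProduct

namespace Pool.Agent.Lib.MP_666dc0_nt.ZO

open WL

variable {F : Type} [Field F] [NumberField F] {n : ℕ} {D : Datum F n}

/-- The levels `K 0 ≥ K 1 ≥ …` at `ℓ` are the filtration `K s = (K 0) ^ (ℓ ^ s)` of a uniform pro-`ℓ` group
`K 0` of dimension `d`, and the elements of `K 0` are congruent to `1` modulo `ℓ²`. -/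
structure IsUniform (ℓ d : ℕ) (U : Subgroup D.Ad) (K : ℕ → Subgroup D.Ad) : Prop where
  level : ∀ s, IsLevel ℓ U (K s)
  anti : ∀ s, K (s + 1) ≤ K s
  normal : ∀ s, ∀ g ∈ K 0, ∀ k ∈ K s, g * k * g⁻¹ ∈ K s
  small : ∀ W : Subgroup D.Ad, IsOpen (W : Set D.Ad) → ∃ s, K s ≤ W
  index : ∀ s, (K s).relIndex (K 0) = ℓ ^ (s * d)
  gen : ∃ g : Fin d → D.Ad, (∀ i, g i ∈ K 0) ∧
    ∀ s, (∀ i, g i ^ ℓ ^ s ∈ K s) ∧ K 0 ≤ Subgroup.closure (Set.range g) ⊔ K s
  comm : ∀ s, ∀ g ∈ K 0, ∀ h ∈ K 0, g * h * g⁻¹ * h⁻¹ ∈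
    Subgroup.closure {x | ∃ y ∈ K 0, x = y ^ (if ℓ = 2 then 4 else ℓ)} ⊔ K s
  entries : ∀ g ∈ K 0, ∀ i j, ∃ a ∈ Ohat F,
    mat g i j = (1 : Matrix (Fin n) (Fin n) (FiniteAdeleRing (𝓞 F) F)) i j + (ℓ : FiniteAdeleRing (𝓞 F) F) ^ 2 * a

/-- A space of weights: a finite-dimensional space of polynomial functions on `G(F ⊗ ℂ)`, stable under
right translations. -/
structure IsWeight (D : Datum F n) (Q : Submodule ℂ (D.Cpx → ℂ)) : Prop where
  fg : Q.FG
  mem : ∀ p ∈ Q, p ∈ polySub D ∧ ∀ y : D.Cpx, (fun x => p (x * y)) ∈ Q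

variable {U : Subgroup D.Ad}

/-- The systems of eigenvalues `lam` and `lam'` are congruent: for all `ℓ`-integral Hecke operators `h` at
the places outside `S` the difference of `ι (lam h)` and `ι (lam' h)` is in the maximal ideal. -/
def Cong (ℓ : ℕ) [Fact ℓ.Prime] (S : Finset (HeightOneSpectrum (𝓞 F))) (ι : ℂ ≃+* PadicAlgCl ℓ)
    (lam lam' : ∀ v, Hecke U v → ℂ) : Prop :=
  ∀ x : IX ℓ S U, ‖ι (lam x.1.1 x.1.2) - ι (lam' x.1.1 x.1.2)‖ < 1

/-- The space spanned by the eigenforms with weights in `Q` and of level `V` whose system of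
eigenvalues has the property `p`. -/
def espan (S : Finset (HeightOneSpectrum (𝓞 F))) (Q : Submodule ℂ (D.Cpx → ℂ)) (V : Subgroup D.Ad)
    (p : (∀ v, Hecke U v → ℂ) → Prop) : Submodule ℂ (D.Ad → D.Cpx → ℂ) :=
  Submodule.span ℂ {f | IsForm D Q V f ∧ ∃ lam, IsEigen S f lam ∧ p lam}

/-- All systems of eigenvalues of tame level `U`, all weights and all levels at `ℓ`. -/
def AllSys (ℓ : ℕ) (S : Finset (HeightOneSpectrum (𝓞 F))) (U : Subgroup D.Ad) :
    Set (∀ v, Hecke U v → ℂ) :=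
  {lam | ∃ K' : Subgroup D.Ad, IsLevel ℓ U K' ∧ lam ∈ Sys S (polySub D) (U ⊔ K')}

/-- There is a homomorphism `r : Γ_F → ᴸG(ℚ̄_ℓ)` attached to the image under `ι` of the system `lam`. -/
def Att {B : Type} [CommRing B] (ℓ : ℕ) [Fact ℓ.Prime] [Algebra B (PadicAlgCl ℓ)] {O : Type} [CommRing O]
    [HopfAlgebra B O] (A : OverB.HopfAction B Gal(AlgebraicClosure F/F) O)
    (S : Finset (HeightOneSpectrum (𝓞 F)))
    (φ : HeightOneSpectrum (𝓞 F) → Gal(AlgebraicClosure F/F))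
    (sat : ∀ v, A.inv (φ v) → Hecke U v) (ι : ℂ ≃+* PadicAlgCl ℓ) (lam : ∀ v, Hecke U v → ℂ) : Prop :=
  ∃ r : Gal(AlgebraicClosure F/F) →* A.LGroup (PadicAlgCl ℓ),
    OverB.IsAttachedTo A S φ (fun v f => ι (lam v (sat v f))) r

/-- The statement of Buzzard and Gee for the system `lam`: the eigenvalues outside `S` are in a number
field `E`, and for every embedding of `E` into `ℚ̄_ℓ` there is an attached homomorphism. -/
def Q1Sys {B : Type} [CommRing B] (ℓ : ℕ) [Fact ℓ.Prime] [Algebra B (PadicAlgCl ℓ)] {O : Type} [CommRing O]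
    [HopfAlgebra B O] (A : OverB.HopfAction B Gal(AlgebraicClosure F/F) O)
    (S : Finset (HeightOneSpectrum (𝓞 F)))
    (φ : HeightOneSpectrum (𝓞 F) → Gal(AlgebraicClosure F/F))
    (sat : ∀ v, A.inv (φ v) → Hecke U v) (lam : ∀ v, Hecke U v → ℂ) : Prop :=
  ∃ (E : IntermediateField ℚ ℂ) (μ : ∀ v, Hecke U v → E), FiniteDimensional ℚ E ∧
    (∀ v, v ∉ S → ∀ h, (μ v h : ℂ) = lam v h) ∧
    ∀ ι : E →+* PadicAlgCl ℓ, ∃ r : Gal(AlgebraicClosure F/F) →* A.LGroup (PadicAlgCl ℓ),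
      OverB.IsAttachedTo A S φ (fun v f => ι (μ v (sat v f))) r

/-- The dimension of the span of the eigenforms with weights in `Q`, of level `U J`, whose system has the
property `p`. -/
noncomputable def dimE (S : Finset (HeightOneSpectrum (𝓞 F))) (Q : Submodule ℂ (D.Cpx → ℂ)) (U J : Subgroup D.Ad)
    (p : (∀ v, Hecke U v → ℂ) → Prop) : ℕ :=
  Module.finrank ℂ (espan S Q (U ⊔ J) p)

/-- The number `[K₀ : J] dim Q`. -/
noncomputable def wt (Q : Submodule ℂ (D.Cpx → ℂ)) (K₀ J : Subgroup D.Ad) : ℕ :=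
  J.relIndex K₀ * Module.finrank ℂ Q

/-- For all levels `J ⊆ K 0` and all weights `Q` the eigenforms with weights in `Q`, of level `U J`, whose system has
the property `p`, span a space of dimension `r [K 0 : J] dim Q`, where `r` is this dimension for weight zero and
`J = K 0`. -/
def Count (ℓ : ℕ) (S : Finset (HeightOneSpectrum (𝓞 F))) (U : Subgroup D.Ad) (K : ℕ → Subgroup D.Ad)
    (p : (∀ v, Hecke U v → ℂ) → Prop) : Prop :=
  ∀ J, IsLevel ℓ U J → J ≤ K 0 → ∀ Q, IsWeight D Q →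
    dimE S Q U J p = wt Q (K 0) J * dimE S (constSub D) U (K 0) p

/-- For some `C`, for all `s`, all levels `J ⊆ K s` and all weights `Q` the eigenforms with weights in `Q`, of level
`U J`, whose system has the property `p`, span a space of dimension at least `(1 - C ℓ ^ (-s)) [K 0 : J] dim Q`. -/
def Abundant (ℓ : ℕ) (S : Finset (HeightOneSpectrum (𝓞 F))) (U : Subgroup D.Ad) (K : ℕ → Subgroup D.Ad)
    (p : (∀ v, Hecke U v → ℂ) → Prop) : Prop :=
  ∃ C : ℝ, ∀ s J, IsLevel ℓ U J → J ≤ K s → ∀ Q, IsWeight D Q →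
    (1 - C / (ℓ : ℝ) ^ s) * wt Q (K 0) J ≤ dimE S Q U J p

end Pool.Agent.Lib.MP_666dc0_nt.ZO
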