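import Mathlib

/-!
# The ring of integers of `ℚ̄_ℓ` and its residue field: definitions (complete, NOT a task)
-/

namespace Pool.Agent.Lib.MP_666dc0_nt.ZO

/-- The ring of integers of `ℚ̄_ℓ`. -/
def OK (ℓ : ℕ) [Fact ℓ.Prime] : Subring (PadicAlgCl ℓ) where
  carrier := {x | ‖x‖ ≤ 1}
  mul_mem' {a b} ha hb := by
    change ‖a * b‖ ≤ 1
    rw [norm_mul]
    exact mul_le_one₀ ha (norm_nonneg _) hb
  one_mem' := by
    change ‖(1 : PadicAlgCl ℓ)‖ ≤ 1
    rw [norm_one]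
  add_mem' {a b} ha hb := (IsUltrametricDist.norm_add_le_max a b).trans (max_le ha hb)
  zero_mem' := by
    change ‖(0 : PadicAlgCl ℓ)‖ ≤ 1
    rw [norm_zero]
    exact zero_le_one
  neg_mem' {a} ha := by
    change ‖-a‖ ≤ 1
    rw [norm_neg]
    exact ha

/-- The reduction homomorphism from the ring of integers of `ℚ̄_ℓ` onto a (residue) field `k`. -/
structure Red (ℓ : ℕ) [Fact ℓ.Prime] (k : Type) [Field k] where
  hom : OK ℓ →+* k
  surj : Function.Surjective hom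
  ker : ∀ x : OK ℓ, hom x = 0 ↔ ‖(x : PadicAlgCl ℓ)‖ < 1

open scoped Classical in
/-- The reduction of an element of `ℚ̄_ℓ` (zero if it is not integral). -/
noncomputable def Red.app {ℓ : ℕ} [Fact ℓ.Prime] {k : Type} [Field k] (ρ : Red ℓ k) (x : PadicAlgCl ℓ) : k :=
  if h : ‖x‖ ≤ 1 then ρ.hom ⟨x, h⟩ else 0

end Pool.Agent.Lib.MP_666dc0_nt.ZO
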