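import Pool.Agent.Lib.MP_666dc0_nt.Mg.G073

/-!
TASK R2c. The graded ring of the group algebra of a uniform group is a truncated polynomial ring.

`A = MonoidAlgebra k P`, characteristic `ℓ`, `q = ℓ ^ s`, `X i = dl k (g i)`, `|α| = ∑ i, α i`.
* `mono_linearIndependent`: the `q ^ d` monomials with `α i < q` span `Fil 0 = ⊤`, whose dimension is `Nat.card P = q ^ d` (`linearIndependent_of_top_le_span_of_card_eq_finrank`).
* `mem_fil_iff`: `←`: `mono_mem`, `fil_anti`. `→`: by `fil_le_span` the element is also a combination of the monomials with `|α| ≥ m`; compare the coefficients.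
-/

namespace Pool.Agent.Lib.MP_666dc0_nt.ZO

variable (k : Type) [Field k] {ℓ : ℕ} [Fact ℓ.Prime] [CharP k ℓ] {s d : ℕ} {P : Type} [Group P]
  {g : Fin d → P}

private theorem R2c_mem (hg : IsUG ℓ (ℓ ^ s) d P g) (m : ℕ) : Fil k P m ≤ Submodule.span k
    ((fun α : Fin d → Fin (ℓ ^ s) => mono k g (fun i => (α i : ℕ))) '' {α | m ≤ ∑ i, (α i : ℕ)}) := by
  refine (fil_le_span k hg m).trans (Submodule.span_mono ?_)
  rintro a ⟨α, h1, h2, rfl⟩
  exact ⟨fun i => ⟨α i, h1 i⟩, h2, rfl⟩

private theorem mono_span_aux (hg : IsUG ℓ (ℓ ^ s) d P g) :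
    Submodule.span k (Set.range fun α : Fin d → Fin (ℓ ^ s) => mono k g (fun i => (α i : ℕ))) = ⊤ := by
  rw [eq_top_iff]
  have h : Fil k P 0 = ⊤ := rfl
  rw [← h]
  exact (R2c_mem k hg 0).trans (Submodule.span_mono (Set.image_subset_range _ _))

omit [CharP k ℓ] in
private theorem R2c_finrank (hg : IsUG ℓ (ℓ ^ s) d P g) : Fintype.card (Fin d → Fin (ℓ ^ s)) = Module.finrank k (MonoidAlgebra k P) := by
  have hl : 0 < ℓ := (Fact.out : ℓ.Prime).pos
  have hc : 0 < Nat.card P := by rw [hg.card]; positivity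
  have : Finite P := Nat.finite_of_card_ne_zero hc.ne'
  have : Fintype P := Fintype.ofFinite P
  rw [LinearEquiv.finrank_eq (MonoidAlgebra.coeffLinearEquiv (M := P) (S := k) k), Module.finrank_finsupp_self,
    ← Nat.card_eq_fintype_card (α := P), hg.card, Fintype.card_fun, Fintype.card_fin, Fintype.card_fin]

theorem mono_linearIndependent (hg : IsUG ℓ (ℓ ^ s) d P g) :
    LinearIndependent k fun α : Fin d → Fin (ℓ ^ s) => mono k g (fun i => (α i : ℕ)) :=
  linearIndependent_of_top_le_span_of_card_eq_finrank (mono_span_aux k hg).ge (R2c_finrank k hg)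

theorem mono_span (hg : IsUG ℓ (ℓ ^ s) d P g) :
    Submodule.span k (Set.range fun α : Fin d → Fin (ℓ ^ s) => mono k g (fun i => (α i : ℕ))) = ⊤ :=
  mono_span_aux k hg

theorem mem_fil_iff (hg : IsUG ℓ (ℓ ^ s) d P g) (c : (Fin d → Fin (ℓ ^ s)) → k) (m : ℕ) :
    ∑ α, c α • mono k g (fun i => (α i : ℕ)) ∈ Fil k P m ↔ ∀ α, ∑ i, (α i : ℕ) < m → c α = 0 := by
  constructor
  · intro h α hα
    have h1 := R2c_mem k hg m h
    rw [Finsupp.mem_span_image_iff_linearCombination] at h1
    obtain ⟨l, hl, hla⟩ := h1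
    have h2 : Finsupp.linearCombination k (fun α : Fin d → Fin (ℓ ^ s) => mono k g (fun i => (α i : ℕ)))
        (Finsupp.equivFunOnFinite.symm c) = ∑ α, c α • mono k g (fun i => (α i : ℕ)) := by
      rw [Finsupp.linearCombination_apply, Finsupp.sum_fintype]
      · rfl
      · intro α
        exact zero_smul _ _
    have h3 : l = Finsupp.equivFunOnFinite.symm c :=
      (mono_linearIndependent k hg) (by rw [hla, h2])
    have h4 : l α = 0 := by
      rw [Finsupp.mem_supported'] at hl
      apply hl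
      intro hh
      have hh' : m ≤ ∑ i, (α i : ℕ) := hh
      omega
    rw [h3] at h4
    exact h4
  · intro h
    refine Submodule.sum_mem _ fun α _ => ?_
    rcases Nat.lt_or_ge (∑ i, (α i : ℕ)) m with h1 | h1
    · rw [h α h1, zero_smul]
      exact Submodule.zero_mem _
    · exact Submodule.smul_mem _ _ (fil_anti k h1 (mono_mem k g _))

end Pool.Agent.Lib.MP_666dc0_nt.ZO
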