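import Pool.Agent.Lib.MP_666dc0_nt.ZO.R2c

/-!
TASK R3. The rank of multiplication by an element of low order.

Let `q = ℓ ^ s`, `b ∉ Fil C`. If `C ≥ q` there is nothing to prove. Let `C < q`. Write `b = ∑ c_α mono α` (`mono_span`) and let `j < C` be the least degree of an `α` with
`c_α ≠ 0` (`mem_fil_iff`: `b ∉ Fil C` gives such an `α` with `|α| < C`; so `b ∈ Fil j`). Among the `α` with `|α| = j`, `c_α ≠ 0` let `β` be the lexicographically smallest
(`toLex`, `Pi.Lex`; the lexicographic order on `Fin d → ℕ` is linear and `α < α'`, `γ ≤ γ'` gives `α + γ < α' + γ'`). For `γ : Fin d → Fin q` with `β i + γ i < q` for all `i` the elements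
`b * mono γ` are linearly independent: suppose `∑ e_γ b * mono γ = 0`, not all `e_γ = 0`; let `m` be the least degree `|γ|` with `e_γ ≠ 0` and `γ` the lexicographically smallest such index of
degree `m`. Modulo `Fil (j + m + 1)` the sum is `∑_{|α| = j, |γ'| = m} c_α e_γ' mono (α + γ')` (`mono_mul`, `fil_mul`), where `mono (α + γ') = 0` if some coordinate is `≥ q` (`mono_eq_zero`). The coefficient of
`mono (β + γ)` is `c_β e_γ ≠ 0` (if `α + γ' = β + γ` then `α = β` and `γ' = γ` because of the minimality), which contradicts `mem_fil_iff`.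
The number of these `γ` is `∏ (q - β i)`, and `∏ (q - β i) ≥ q ^ d - (∑ β i) q ^ (d-1)`, that is `∏ (1 - β i / q) ≥ 1 - (∑ β i) / q` (real numbers in `[0, 1]`), and `∑ β i = j ≤ C`.
The dimension of the range is at least the number of linearly independent elements in it.
-/

namespace Pool.Agent.Lib.MP_666dc0_nt.ZO

/-- degree -/
private def dg {d q : ℕ} (α : Fin d → Fin q) : ℕ := ∑ i, (α i : ℕ)

/-- weight -/
private def wt {d q : ℕ} (α : Fin d → Fin q) : ℕ := ∑ i, (α i : ℕ) * q ^ (i : ℕ)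

private theorem wt_inj {d q : ℕ} {α β : Fin d → Fin q} (h : wt α = wt β) : α = β := by
  have h1 : (finFunctionFinEquiv α : ℕ) = (finFunctionFinEquiv β : ℕ) := by
    rw [finFunctionFinEquiv_apply, finFunctionFinEquiv_apply]
    exact h
  exact finFunctionFinEquiv.injective (Fin.ext h1)

/-- A minimal index of the support. -/
private theorem exists_min {K : Type} [Zero K] {d q : ℕ} (c : (Fin d → Fin q) → K)
    (hc : ∃ α, c α ≠ 0) :
    ∃ β, c β ≠ 0 ∧ (∀ α, c α ≠ 0 → dg β ≤ dg α) ∧
      ∀ α, c α ≠ 0 → dg α = dg β → wt β ≤ wt α := by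
  classical
  obtain ⟨α₀, h₀⟩ := hc
  obtain ⟨α₁, h1, h2⟩ := Finset.exists_min_image (Finset.univ.filter fun α => c α ≠ 0) dg
    ⟨α₀, by simp [h₀]⟩
  obtain ⟨β, h3, h4⟩ := Finset.exists_min_image
    (Finset.univ.filter fun α => c α ≠ 0 ∧ dg α = dg α₁) wt ⟨α₁, by simpa using h1⟩
  simp only [Finset.mem_filter, Finset.mem_univ, true_and] at h1 h2 h3 h4
  refine ⟨β, h3.1, fun α hα => ?_, fun α hα hd => ?_⟩
  · rw [h3.2]; exact h2 α hα
  · exact h4 α ⟨hα, hd.trans h3.2⟩

private theorem prod_one_sub {ι : Type} (t : Finset ι) (x : ι → ℝ) (h0 : ∀ i ∈ t, 0 ≤ x i)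
    (h1 : ∀ i ∈ t, x i ≤ 1) : 1 - ∑ i ∈ t, x i ≤ ∏ i ∈ t, (1 - x i) ∧
      0 ≤ ∏ i ∈ t, (1 - x i) ∧ ∏ i ∈ t, (1 - x i) ≤ 1 := by
  classical
  induction t using Finset.induction_on with
  | empty => simp
  | insert a t ha ih =>
    obtain ⟨i1, i2, i3⟩ := ih (fun i hi => h0 i (Finset.mem_insert_of_mem hi))
      (fun i hi => h1 i (Finset.mem_insert_of_mem hi))
    have a0 := h0 a (Finset.mem_insert_self a t)
    have a1 := h1 a (Finset.mem_insert_self a t)
    rw [Finset.sum_insert ha, Finset.prod_insert ha]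
    refine ⟨?_, mul_nonneg (by linarith) i2, ?_⟩
    · nlinarith
    · nlinarith

section
variable (k : Type) [Field k] {ℓ : ℕ} [Fact ℓ.Prime] [CharP k ℓ] {s d : ℕ} {P : Type} [Group P]
  {g : Fin d → P}

private noncomputable def bs (hg : IsUG ℓ (ℓ ^ s) d P g) :
    Module.Basis (Fin d → Fin (ℓ ^ s)) k (MonoidAlgebra k P) :=
  Module.Basis.mk (mono_linearIndependent k hg) (mono_span k hg).ge

private theorem bs_apply (hg : IsUG ℓ (ℓ ^ s) d P g) (α : Fin d → Fin (ℓ ^ s)) :
    bs k hg α = mono k g (fun i => (α i : ℕ)) := by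
  simp [bs]

private theorem coef_fil (hg : IsUG ℓ (ℓ ^ s) d P g) {a : MonoidAlgebra k P} {m : ℕ} :
    a ∈ Fil k P m ↔ ∀ α, dg α < m → (bs k hg).repr a α = 0 := by
  have h := mem_fil_iff k hg (fun α => (bs k hg).repr a α) m
  have h2 : ∑ α, (bs k hg).repr a α • mono k g (fun i => (α i : ℕ)) = a := by
    have := (bs k hg).sum_repr a
    simpa only [bs_apply] using this
  rw [h2] at h
  exact h

/-- the coefficient of a product of two monomials -/
private theorem coef_mono_mul (hg : IsUG ℓ (ℓ ^ s) d P g) (α γ τ : Fin d → Fin (ℓ ^ s))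
    (h : dg τ ≤ dg α + dg γ) :
    (bs k hg).repr (mono k g (fun i => (α i : ℕ)) * mono k g (fun i => (γ i : ℕ))) τ =
      if (∀ i, (τ i : ℕ) = α i + γ i) then 1 else 0 := by
  have h1 := mono_mul k hg (fun i => (α i : ℕ)) (fun i => (γ i : ℕ))
  have h2 := (coef_fil k hg).1 h1 τ (Nat.lt_succ_of_le h)
  rw [map_sub, Finsupp.sub_apply, sub_eq_zero] at h2
  rw [h2]
  by_cases hq : ∀ i, (α i : ℕ) + γ i < ℓ ^ s
  · have h3 : mono k g ((fun i => (α i : ℕ)) + fun i => (γ i : ℕ)) =
        bs k hg (fun i => ⟨(α i : ℕ) + γ i, hq i⟩) := by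
      rw [bs_apply]; rfl
    rw [h3, (bs k hg).repr_self, Finsupp.single_apply]
    by_cases ht : ∀ i, (τ i : ℕ) = α i + γ i
    · rw [if_pos, if_pos ht]
      funext i
      exact Fin.ext (ht i).symm
    · rw [if_neg, if_neg ht]
      intro he
      apply ht
      intro i
      rw [← he]
  · push Not at hq
    obtain ⟨i, hi⟩ := hq
    rw [mono_eq_zero k hg (i := i) hi, if_neg]
    · simp
    · intro ht
      have := (τ i).2
      rw [ht i] at this
      exact absurd this (not_lt.2 hi)

end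

theorem rank_mulLeft_ge (k : Type) [Field k] {ℓ : ℕ} [Fact ℓ.Prime] [CharP k ℓ] {s d : ℕ} {P : Type} [Group P]
    [Finite P] {g : Fin d → P} (hg : IsUG ℓ (ℓ ^ s) d P g) (C : ℕ) (b : MonoidAlgebra k P)
    (hb : b ∉ Fil k P C) :
    (1 - (C : ℝ) / (ℓ : ℝ) ^ s) * (ℓ : ℝ) ^ (s * d) ≤
      (Module.finrank k (LinearMap.range (LinearMap.mulLeft k b)) : ℝ) := by
  classical
  have hℓ : 0 < ℓ := (Fact.out : ℓ.Prime).pos
  have hq0 : 0 < ℓ ^ s := pow_pos hℓ s
  have hqR : (0 : ℝ) < (ℓ : ℝ) ^ s := by positivity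
  set B := bs k hg with hB
  have hfin : Module.Finite k (MonoidAlgebra k P) := Module.Finite.of_basis B
  -- the minimal index of `b`
  have hex : ∃ α, dg α < C ∧ B.repr b α ≠ 0 := by
    by_contra hcon
    push Not at hcon
    exact hb ((coef_fil k hg).2 fun α hα => hcon α hα)
  obtain ⟨β, hβ0, hβd, hβw⟩ := exists_min (fun α => B.repr b α) (by obtain ⟨α, _, h⟩ := hex; exact ⟨α, h⟩)
  have hjC : dg β < C := by
    obtain ⟨α, h1, h2⟩ := hex
    exact (hβd α h2).trans_lt h1
  -- the set of the `γ`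
  set Γ : Finset (Fin d → Fin (ℓ ^ s)) :=
    Fintype.piFinset fun i => Finset.univ.filter fun x : Fin (ℓ ^ s) => (β i : ℕ) + x < ℓ ^ s with hΓ
  have hmemΓ : ∀ γ, γ ∈ Γ ↔ ∀ i, (β i : ℕ) + γ i < ℓ ^ s := by
    intro γ
    simp [hΓ, Fintype.mem_piFinset]
  have hbsum : ∑ α, B.repr b α • mono k g (fun i => (α i : ℕ)) = b := by
    have := B.sum_repr b
    simpa only [hB, bs_apply] using this
  have hli : LinearIndependent k fun γ : Γ => b * mono k g (fun i => ((γ : Fin d → Fin (ℓ ^ s)) i : ℕ)) := by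
    rw [Fintype.linearIndependent_iff]
    intro e he
    by_contra hcon
    push Not at hcon
    -- extension of `e` by zero
    set e' : (Fin d → Fin (ℓ ^ s)) → k := fun γ => if h : γ ∈ Γ then e ⟨γ, h⟩ else 0 with he'
    have hsum : ∑ γ, e' γ • (b * mono k g (fun i => (γ i : ℕ))) = 0 := by
      rw [← he, ← Finset.sum_subset (Finset.subset_univ Γ)]
      · rw [← Finset.sum_coe_sort Γ]
        refine Finset.sum_congr rfl fun γ _ => ?_
        simp [he']
      · intro γ _ hγ
        simp [he', hγ]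
    have hex' : ∃ γ, e' γ ≠ 0 := by
      obtain ⟨γ, hγ⟩ := hcon
      refine ⟨γ.1, ?_⟩
      simpa [he'] using hγ
    obtain ⟨γ₀, h0, hd0, hw0⟩ := exists_min e' hex'
    have hγΓ : γ₀ ∈ Γ := by
      by_contra hcon
      exact h0 (by simp [he', hcon])
    have hlt := (hmemΓ γ₀).1 hγΓ
    set τ : Fin d → Fin (ℓ ^ s) := fun i => ⟨(β i : ℕ) + γ₀ i, hlt i⟩ with hτ
    have hdτ : dg τ = dg β + dg γ₀ := by
      simp [dg, hτ, Finset.sum_add_distrib]
    have hcoef : B.repr (∑ γ, e' γ • (b * mono k g (fun i => (γ i : ℕ)))) τ =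
        B.repr b β * e' γ₀ := by
      have h1 : ∀ γ, e' γ • (b * mono k g (fun i => (γ i : ℕ))) =
          ∑ α, (B.repr b α * e' γ) • (mono k g (fun i => (α i : ℕ)) * mono k g (fun i => (γ i : ℕ))) := by
        intro γ
        conv_lhs => rw [← hbsum]
        rw [Finset.sum_mul, Finset.smul_sum]
        refine Finset.sum_congr rfl fun α _ => ?_
        rw [smul_mul_assoc, smul_smul, mul_comm]
      simp only [h1, map_sum, map_smul, Finsupp.coe_finsetSum, Finset.sum_apply, Finsupp.coe_smul,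
        Pi.smul_apply, smul_eq_mul]
      rw [Finset.sum_eq_single γ₀, Finset.sum_eq_single β]
      · rw [coef_mono_mul k hg β γ₀ τ hdτ.le, if_pos (fun i => rfl), mul_one]
      · intro α _ hα
        by_cases hc : B.repr b α = 0
        · rw [hc, zero_mul, zero_mul]
        · have hd1 := hβd α hc
          rw [coef_mono_mul k hg α γ₀ τ (by omega), if_neg, mul_zero]
          intro ht
          apply hα
          funext i
          apply Fin.ext
          have := ht i
          simp only [hτ] at this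
          omega
      · intro h; exact absurd (Finset.mem_univ _) h
      · intro γ _ hγ
        refine Finset.sum_eq_zero fun α _ => ?_
        by_cases hc : B.repr b α = 0
        · rw [hc, zero_mul, zero_mul]
        by_cases hc' : e' γ = 0
        · rw [hc', mul_zero, zero_mul]
        have hd1 := hβd α hc
        have hd2 := hd0 γ hc'
        rw [coef_mono_mul k hg α γ τ (by omega), if_neg, mul_zero]
        intro ht
        have hdeg : dg α + dg γ = dg β + dg γ₀ := by
          rw [← hdτ]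
          simp only [dg, ← Finset.sum_add_distrib]
          exact Finset.sum_congr rfl fun i _ => (ht i).symm
        have hwt : wt α + wt γ = wt β + wt γ₀ := by
          simp only [wt, ← Finset.sum_add_distrib, ← add_mul]
          refine Finset.sum_congr rfl fun i _ => ?_
          have := ht i
          simp only [hτ] at this
          rw [this]
        have hw1 := hβw α hc (by omega)
        have hw2 := hw0 γ hc' (by omega)
        exact hγ (wt_inj (by omega))
      · intro h; exact absurd (Finset.mem_univ _) h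
    rw [hsum] at hcoef
    simp only [map_zero, Finsupp.coe_zero, Pi.zero_apply] at hcoef
    exact (mul_ne_zero hβ0 h0) hcoef.symm
  have hcard : Γ.card ≤ Module.finrank k (LinearMap.range (LinearMap.mulLeft k b)) := by
    have hli' : LinearIndependent k (fun γ : Γ =>
        (⟨b * mono k g (fun i => ((γ : Fin d → Fin (ℓ ^ s)) i : ℕ)), ⟨_, rfl⟩⟩ :
          LinearMap.range (LinearMap.mulLeft k b))) := by
      apply LinearIndependent.of_comp (LinearMap.range (LinearMap.mulLeft k b)).subtype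
      exact hli
    have := hli'.fintype_card_le_finrank
    simpa using this
  have hcard2 : (Γ.card : ℝ) = ∏ i, ((ℓ : ℝ) ^ s - (β i : ℝ)) := by
    rw [hΓ, Fintype.card_piFinset, Nat.cast_prod]
    refine Finset.prod_congr rfl fun i _ => ?_
    have h1 : (Finset.univ.filter fun x : Fin (ℓ ^ s) => (β i : ℕ) + x < ℓ ^ s).card = ℓ ^ s - β i := by
      have h2 : (Finset.univ.filter fun x : Fin (ℓ ^ s) => (β i : ℕ) + x < ℓ ^ s).card =
          (Finset.range (ℓ ^ s - β i)).card := by
        refine Finset.card_bij (fun x _ => (x : ℕ)) ?_ ?_ ?_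
        · intro x hx
          simp only [Finset.mem_filter, Finset.mem_univ, true_and, Finset.mem_range] at hx ⊢
          omega
        · intro x _ y _ h; exact Fin.ext h
        · intro y hy
          simp only [Finset.mem_range] at hy
          have hb := (β i).2
          exact ⟨⟨y, by omega⟩, by simp; omega, rfl⟩
      rw [h2, Finset.card_range]
    rw [h1, Nat.cast_sub (β i).2.le]
    push_cast
    rfl
  have hprod : (1 - (C : ℝ) / (ℓ : ℝ) ^ s) * (ℓ : ℝ) ^ (s * d) ≤ ∏ i, ((ℓ : ℝ) ^ s - (β i : ℝ)) := by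
    have h1 := (prod_one_sub (Finset.univ : Finset (Fin d)) (fun i => (β i : ℝ) / (ℓ : ℝ) ^ s)
      (fun i _ => by positivity) (fun i _ => by
        rw [div_le_one hqR]
        have := (β i).2.le
        exact_mod_cast this)).1
    have h2 : ∏ i, ((ℓ : ℝ) ^ s - (β i : ℝ)) =
        (∏ i : Fin d, (1 - (β i : ℝ) / (ℓ : ℝ) ^ s)) * (ℓ : ℝ) ^ (s * d) := by
      have h3 : (ℓ : ℝ) ^ (s * d) = ∏ _i : Fin d, (ℓ : ℝ) ^ s := by
        rw [Finset.prod_const, Finset.card_univ, Fintype.card_fin, pow_mul]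
      rw [h3, ← Finset.prod_mul_distrib]
      refine Finset.prod_congr rfl fun i _ => ?_
      field_simp
    rw [h2]
    refine mul_le_mul_of_nonneg_right ?_ (by positivity)
    refine le_trans ?_ h1
    rw [← Finset.sum_div]
    have h4 : (∑ i, (β i : ℝ)) ≤ (C : ℝ) := by
      have : (dg β : ℝ) ≤ C := by exact_mod_cast hjC.le
      simpa [dg] using this
    have h5 : (∑ i, (β i : ℝ)) / (ℓ : ℝ) ^ s ≤ (C : ℝ) / (ℓ : ℝ) ^ s :=
      div_le_div_of_nonneg_right h4 hqR.le
    linarith
  calc (1 - (C : ℝ) / (ℓ : ℝ) ^ s) * (ℓ : ℝ) ^ (s * d) ≤ ∏ i, ((ℓ : ℝ) ^ s - (β i : ℝ)) := hprod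
    _ = (Γ.card : ℝ) := hcard2.symm
    _ ≤ _ := by exact_mod_cast hcard

end Pool.Agent.Lib.MP_666dc0_nt.ZO
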