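import Pool.Agent.Lib.MP_666dc0_nt.ZO.Defs
import Pool.Agent.Lib.MP_666dc0_nt.ZO.LDefs
import Pool.Agent.Lib.MP_666dc0_nt.ZO.RDefs

/-!
# Functions on `G(F) \ G(𝔸_f) / U`: definitions (complete, NOT a task)
-/

open NumberField IsDedekindDomain
open scoped NumberField

namespace Pool.Agent.Lib.MP_666dc0_nt.ZO

open WL

variable {F : Type} [Field F] [NumberField F] {n : ℕ} {D : Datum F n}

theorem IsWeight.fin {Q : Submodule ℂ (D.Cpx → ℂ)} (h : IsWeight D Q) : FiniteDimensional ℂ Q :=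
  Module.Finite.iff_fg.2 h.fg

theorem IsWeight.le {Q : Submodule ℂ (D.Cpx → ℂ)} (h : IsWeight D Q) : Q ≤ polySub D := fun p hp => (h.mem p hp).1

theorem IsWeight.trans {Q : Submodule ℂ (D.Cpx → ℂ)} (h : IsWeight D Q) :
    ∀ p ∈ Q, ∀ y : D.Cpx, (fun x => p (x * y)) ∈ Q := fun p hp => (h.mem p hp).2

/-- `y` has trivial components outside `ℓ`. -/
def AtEll (ℓ : ℕ) (y : D.Ad) : Prop := ∀ v : HeightOneSpectrum (𝓞 F), (ℓ : 𝓞 F) ∉ v.asIdeal → TrivialAt v y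

/-- Functions that are left invariant under `G(F)` and right invariant under `U`. -/
structure IsTF (U : Subgroup D.Ad) {α : Type} (φ : D.Ad → α) : Prop where
  left : ∀ (γ : D.Rat) g, φ (D.toAd γ * g) = φ g
  right : ∀ g, ∀ u ∈ U, φ (g * u) = φ g

/-- The finite groups `K 0 / K s`. -/
abbrev PP (K : ℕ → Subgroup D.Ad) (s : ℕ) : Type := K 0 ⧸ (K s).subgroupOf (K 0)

/-- A tower of levels at `ℓ` (not necessarily normal in `K 0`). -/
structure IsTow (ℓ : ℕ) (U : Subgroup D.Ad) (K : ℕ → Subgroup D.Ad) : Prop where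
  level : ∀ s, IsLevel ℓ U (K s)
  anti : ∀ s, K (s + 1) ≤ K s
  small : ∀ W : Subgroup D.Ad, IsOpen (W : Set D.Ad) → ∃ s, K s ≤ W
  entries : ∀ g ∈ K 0, ∀ i j, ∃ a ∈ Ohat F,
    mat g i j = (1 : Matrix (Fin n) (Fin n) (FiniteAdeleRing (𝓞 F) F)) i j + (ℓ : FiniteAdeleRing (𝓞 F) F) ^ 2 * a
  fin : ∀ s, Finite (PP K s)

theorem IsTow.K_le {ℓ : ℕ} {U : Subgroup D.Ad} {K : ℕ → Subgroup D.Ad} (hK : IsTow ℓ U K) {s s' : ℕ}
    (h : s ≤ s') : K s' ≤ K s := by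
  induction h with
  | refl => exact le_rfl
  | step _ ih => exact (hK.anti _).trans ih

theorem IsTow.finite_PP {ℓ : ℕ} {U : Subgroup D.Ad} {K : ℕ → Subgroup D.Ad} (hK : IsTow ℓ U K) (s : ℕ) :
    Finite (PP K s) := hK.fin s

/-- The tower `K 0 ≥ J ≥ J ⊓ K 2 ≥ …`. -/
noncomputable def tow (K : ℕ → Subgroup D.Ad) (J : Subgroup D.Ad) : ℕ → Subgroup D.Ad
  | 0 => K 0
  | 1 => J
  | s + 2 => J ⊓ K (s + 2)

/-- The coordinates on `G(F) \ G(𝔸_f) / U`, when `K 0` acts freely: `cls` is the class in the finite set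
`R = G(F) \ G(𝔸_f) / U K 0`, `kap` the coordinate in `K 0`, `pt` a system of representatives. -/
structure Chart (U : Subgroup D.Ad) (K : ℕ → Subgroup D.Ad) where
  R : Type
  [fin : Fintype R]
  [dec : DecidableEq R]
  cls : D.Ad → R
  kap : D.Ad → K 0
  pt : R → D.Ad
  cls_left : ∀ (γ : D.Rat) g, cls (D.toAd γ * g) = cls g
  cls_right : ∀ g, ∀ k ∈ U ⊔ K 0, cls (g * k) = cls g
  cls_pt : ∀ r, cls (pt r) = r
  kap_left : ∀ (γ : D.Rat) g, kap (D.toAd γ * g) = kap g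
  kap_tame : ∀ g, ∀ u ∈ U, kap (g * u) = kap g
  kap_mul : ∀ g (k : K 0), kap (g * k) = kap g * k
  kap_pt : ∀ r, kap (pt r) = 1
  decomp : ∀ g, ∃ (γ : D.Rat), ∃ u ∈ U, g = D.toAd γ * pt (cls g) * u * kap g

attribute [instance] Chart.fin Chart.dec

variable {U : Subgroup D.Ad} {K : ℕ → Subgroup D.Ad}

/-- The same chart for the tower `tow K J` (a chart depends only on `K 0`). -/
noncomputable def Chart.tow (c : Chart U K) (J : Subgroup D.Ad) : Chart U (ZO.tow K J) where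
  R := c.R
  cls := c.cls
  kap := c.kap
  pt := c.pt
  cls_left := c.cls_left
  cls_right := c.cls_right
  cls_pt := c.cls_pt
  kap_left := c.kap_left
  kap_tame := c.kap_tame
  kap_mul := c.kap_mul
  kap_pt := c.kap_pt
  decomp := c.decomp

/-- The function on `G(𝔸_f)` with the coordinates `f`. -/
noncomputable def Chart.pull (c : Chart U K) (s : ℕ) {α : Type} (f : c.R × PP K s → α) : D.Ad → α :=
  fun g => f (c.cls g, QuotientGroup.mk (c.kap g))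

/-- The base point with the coordinates `(r, x)`. -/
noncomputable def Chart.bp (c : Chart U K) (s : ℕ) (p : c.R × PP K s) : D.Ad :=
  c.pt p.1 * (Quotient.out p.2 : K 0)

/-- Scalar functions which are right invariant under `K s`. -/
structure IsLC (U : Subgroup D.Ad) (K : ℕ → Subgroup D.Ad) (s : ℕ) {α : Type} (φ : D.Ad → α) : Prop where
  tf : IsTF U φ
  inv : ∀ g, ∀ k ∈ K s, φ (g * k) = φ g

/-- The vector valued functions of the weight given by the matrices `ρ` and of level `K s`. -/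
structure IsVF {ℓ : ℕ} [Fact ℓ.Prime] (U : Subgroup D.Ad) (K : ℕ → Subgroup D.Ad) {w : ℕ}
    (ρ : K 0 →* Matrix (Fin w) (Fin w) (PadicAlgCl ℓ)) (s : ℕ) (Φ : D.Ad → Fin w → PadicAlgCl ℓ) : Prop where
  tf : IsTF U Φ
  eqv : ∀ g, ∀ k : K 0, (k : D.Ad) ∈ K s → Φ (g * k) = (ρ k⁻¹).mulVec (Φ g)

/-- The space of these functions. -/
noncomputable def VF {ℓ : ℕ} [Fact ℓ.Prime] (U : Subgroup D.Ad) (K : ℕ → Subgroup D.Ad) {w : ℕ}
    (ρ : K 0 →* Matrix (Fin w) (Fin w) (PadicAlgCl ℓ)) (s : ℕ) :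
    Submodule (PadicAlgCl ℓ) (D.Ad → Fin w → PadicAlgCl ℓ) where
  carrier := {Φ | IsVF U K ρ s Φ}
  add_mem' {a b} ha hb := ⟨⟨fun γ g => by simp only [Pi.add_apply, ha.tf.left, hb.tf.left],
      fun g u hu => by simp only [Pi.add_apply, ha.tf.right g u hu, hb.tf.right g u hu]⟩,
    fun g k hk => by simp only [Pi.add_apply, ha.eqv g k hk, hb.eqv g k hk, Matrix.mulVec_add]⟩
  zero_mem' := ⟨⟨fun _ _ => rfl, fun _ _ _ => rfl⟩, fun g k _ => by
    simp only [Pi.zero_apply, Matrix.mulVec_zero]⟩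
  smul_mem' c a ha := ⟨⟨fun γ g => by simp only [Pi.smul_apply, ha.tf.left],
      fun g u hu => by simp only [Pi.smul_apply, ha.tf.right g u hu]⟩,
    fun g k hk => by simp only [Pi.smul_apply, ha.eqv g k hk, Matrix.mulVec_smul]⟩

/-- The matrices `ρ k` are congruent to `1` modulo `ℓ`, with entries in a finite extension of `ℚ_ℓ`, and
depend continuously on `k`. -/
structure IsSmallRep {ℓ : ℕ} [Fact ℓ.Prime] (K : ℕ → Subgroup D.Ad) {w : ℕ}
    (ρ : K 0 →* Matrix (Fin w) (Fin w) (PadicAlgCl ℓ)) : Prop where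
  close : ∀ k i j, ‖ρ k i j - (1 : Matrix (Fin w) (Fin w) (PadicAlgCl ℓ)) i j‖ ≤ (ℓ : ℝ)⁻¹
  field : ∃ L : IntermediateField ℚ_[ℓ] (PadicAlgCl ℓ), FiniteDimensional ℚ_[ℓ] L ∧ ∀ k i j, ρ k i j ∈ L
  cont : ∀ ε : ℝ, 0 < ε → ∃ s, ∀ k : K 0, (k : D.Ad) ∈ K s →
    ∀ i j, ‖ρ k i j - (1 : Matrix (Fin w) (Fin w) (PadicAlgCl ℓ)) i j‖ ≤ ε

/-- A basis `q` of the space of weights `Q` in which the elements of `K 0` act by the matrices `ρ`. -/
structure GoodBasis {ℓ : ℕ} [Fact ℓ.Prime] {ι : ℂ ≃+* PadicAlgCl ℓ} (H : HatData F ℓ ι)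
    (K : ℕ → Subgroup D.Ad) (Q : Submodule ℂ (D.Cpx → ℂ)) (w : ℕ) where
  q : Fin w → D.Cpx → ℂ
  ρ : K 0 →* Matrix (Fin w) (Fin w) (PadicAlgCl ℓ)
  indep : LinearIndependent ℂ q
  span : Submodule.span ℂ (Set.range q) = Q
  act : ∀ (k : K 0) (j : Fin w) (x : D.Cpx), ι (q j (x * H.hat D k)) = ∑ i, ρ k i j * ι (q i x)
  small : IsSmallRep K ρ

/-- The right `U`-invariant functions. -/
noncomputable def FU (ℓ : ℕ) [Fact ℓ.Prime] (U : Subgroup D.Ad) : Submodule (PadicAlgCl ℓ) (D.Ad → PadicAlgCl ℓ) where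
  carrier := {φ | ∀ g, ∀ u ∈ U, φ (g * u) = φ g}
  add_mem' {a b} ha hb g u hu := by simp only [Pi.add_apply, ha g u hu, hb g u hu]
  zero_mem' _ _ _ := rfl
  smul_mem' c a ha g u hu := by simp only [Pi.smul_apply, ha g u hu]

/-- The bounded right `U`-invariant functions with values in a finite extension of `ℚ_ℓ`. -/
structure IsNice {ℓ : ℕ} [Fact ℓ.Prime] (U : Subgroup D.Ad) (φ : D.Ad → PadicAlgCl ℓ) : Prop where
  right : ∀ g, ∀ u ∈ U, φ (g * u) = φ g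
  field : ∃ L : IntermediateField ℚ_[ℓ] (PadicAlgCl ℓ), FiniteDimensional ℚ_[ℓ] L ∧ ∀ g, φ g ∈ L
  bdd : ∃ C : ℝ, ∀ g, ‖φ g‖ ≤ C

/-- The space of these functions. -/
noncomputable def Nice (ℓ : ℕ) [Fact ℓ.Prime] (U : Subgroup D.Ad) : Submodule (PadicAlgCl ℓ) (D.Ad → PadicAlgCl ℓ) where
  carrier := {φ | IsNice U φ}
  add_mem' {a b} ha hb := by
    obtain ⟨L, hL, hLa⟩ := ha.field
    obtain ⟨L', hL', hLb⟩ := hb.field
    obtain ⟨C, hC⟩ := ha.bdd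
    obtain ⟨C', hC'⟩ := hb.bdd
    refine ⟨fun g u hu => by simp only [Pi.add_apply, ha.right g u hu, hb.right g u hu],
      ⟨L ⊔ L', inferInstance, fun g => add_mem ((le_sup_left : L ≤ L ⊔ L') (hLa g))
        ((le_sup_right : L' ≤ L ⊔ L') (hLb g))⟩,
      ⟨max C C', fun g => (IsUltrametricDist.norm_add_le_max _ _).trans
        (max_le_max (hC g) (hC' g))⟩⟩
  zero_mem' := ⟨fun _ _ _ => rfl, ⟨⊥, inferInstance, fun _ => zero_mem _⟩, ⟨0, fun g => by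
    simp only [Pi.zero_apply, norm_zero, le_refl]⟩⟩
  smul_mem' c a ha := by
    obtain ⟨L, hL, hLa⟩ := ha.field
    obtain ⟨C, hC⟩ := ha.bdd
    refine ⟨fun g u hu => by simp only [Pi.smul_apply, ha.right g u hu],
      ⟨L ⊔ IntermediateField.adjoin ℚ_[ℓ] {c}, ?_, fun g => ?_⟩, ⟨‖c‖ * C, fun g => ?_⟩⟩
    · have := IntermediateField.adjoin.finiteDimensional
        (Algebra.IsIntegral.isIntegral (R := ℚ_[ℓ]) c)
      exact inferInstance
    · exact mul_mem ((le_sup_right : _ ≤ L ⊔ IntermediateField.adjoin ℚ_[ℓ] {c})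
        (IntermediateField.subset_adjoin ℚ_[ℓ] {c} rfl)) ((le_sup_left : L ≤ _) (hLa g))
    · rw [Pi.smul_apply, smul_eq_mul, norm_mul]
      exact mul_le_mul_of_nonneg_left (hC g) (norm_nonneg _)

/-- `φ` is an eigenfunction of the Hecke operators with the eigenvalues `c`. -/
def IsEF {ℓ : ℕ} [Fact ℓ.Prime] (S : Finset (HeightOneSpectrum (𝓞 F))) (U : Subgroup D.Ad)
    (φ : D.Ad → PadicAlgCl ℓ) (c : IX ℓ S U → PadicAlgCl ℓ) : Prop :=
  ∀ x : IX ℓ S U, x.1.2.actK φ = fun g => c x * φ g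

/-- The values `ι (lam x)`. -/
noncomputable def iv {ℓ : ℕ} [Fact ℓ.Prime] {S : Finset (HeightOneSpectrum (𝓞 F))} {U : Subgroup D.Ad}
    (ι : ℂ ≃+* PadicAlgCl ℓ) (lam : ∀ v, Hecke U v → ℂ) : IX ℓ S U → PadicAlgCl ℓ :=
  fun x => ι (lam x.1.1 x.1.2)

/-- The uniformly continuous functions. -/
structure IsUC {ℓ : ℕ} [Fact ℓ.Prime] (U : Subgroup D.Ad) (K : ℕ → Subgroup D.Ad) (φ : D.Ad → PadicAlgCl ℓ) :
    Prop where
  tf : IsTF U φ
  cont : ∀ ε : ℝ, 0 < ε → ∃ s, ∀ k ∈ K s, ∀ g, ‖φ (g * k) - φ g‖ ≤ ε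

end Pool.Agent.Lib.MP_666dc0_nt.ZO
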